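import Mathlib

set_option autoImplicit false

/-!
# A countable family of Lipschitz functions which determines weak convergence
-/

namespace Pool.Agent.X136.QE

open MeasureTheory Filter Topology TopologicalSpace

variable {Ω : Type*} [MetricSpace Ω] [MeasurableSpace Ω] [BorelSpace Ω]

/-- the closed set of an index -/
def DT (e : ℕ → Set Ω) (T : Finset ℕ) : Set Ω := (⋃ n ∈ T, e n)ᶜ

theorem DT_closed {e : ℕ → Set Ω} (he : ∀ n, IsOpen (e n)) (T : Finset ℕ) : IsClosed (DT e T) :=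
  (isOpen_biUnion fun n _ => he n).isClosed_compl

/-- the functions -/
noncomputable def TI (e : ℕ → Set Ω) (z : Finset ℕ × ℕ) (x : Ω) : ℝ :=
  thickenedIndicator (δ := (1 : ℝ) / (z.2 + 1)) (by positivity) (DT e z.1) x

theorem TI_nonneg (e : ℕ → Set Ω) (z : Finset ℕ × ℕ) (x : Ω) : 0 ≤ TI e z x := NNReal.coe_nonneg _

theorem TI_le_one (e : ℕ → Set Ω) (z : Finset ℕ × ℕ) (x : Ω) : TI e z x ≤ 1 := by
  unfold TI
  exact_mod_cast thickenedIndicator_le_one _ _ x

theorem TI_lip (e : ℕ → Set Ω) (z : Finset ℕ × ℕ) : ∃ L, LipschitzWith L (TI e z) :=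
  ⟨_, lipschitzWith_thickenedIndicator (δ := (1 : ℝ) / (z.2 + 1)) (by positivity) (DT e z.1)⟩

theorem exists_close {e : ℕ → Set Ω} (he : ∀ n, IsOpen (e n))
    (hb : ∀ U : Set Ω, IsOpen U → U = ⋃ n ∈ {n | e n ⊆ U}, e n) (μ : Measure Ω)
    [IsProbabilityMeasure μ] {C : Set Ω} (hC : IsClosed C) {ε : ℝ} (hε : 0 < ε) :
    ∃ T : Finset ℕ, C ⊆ DT e T ∧ μ.real (DT e T) < μ.real C + ε := by
  classical
  set T : ℕ → Finset ℕ := fun j => (Finset.range j).filter fun n => e n ⊆ Cᶜ with hT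
  have hmono : Antitone fun j => DT e (T j) := by
    intro i j hij
    unfold DT
    refine Set.compl_subset_compl.2 (Set.biUnion_subset_biUnion_left ?_)
    intro n hn
    have h1 : n ∈ T i := hn
    show n ∈ T j
    rw [hT, Finset.mem_filter, Finset.mem_range] at h1 ⊢
    exact ⟨h1.1.trans_le hij, h1.2⟩
  have hsub : ∀ j, C ⊆ DT e (T j) := by
    intro j x hx hx2
    rw [Set.mem_iUnion₂] at hx2
    obtain ⟨n, hn, hxn⟩ := hx2
    rw [hT, Finset.mem_filter] at hn
    exact hn.2 hxn hx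
  have hint : ⋂ j, DT e (T j) = C := by
    apply Set.Subset.antisymm
    · intro x hx
      by_contra hxC
      have h1 : x ∈ Cᶜ := hxC
      rw [hb Cᶜ hC.isOpen_compl, Set.mem_iUnion₂] at h1
      obtain ⟨n, hn, hxn⟩ := h1
      have h2 := Set.mem_iInter.1 hx (n + 1)
      apply h2
      rw [Set.mem_iUnion₂]
      refine ⟨n, ?_, hxn⟩
      rw [hT, Finset.mem_filter, Finset.mem_range]
      exact ⟨Nat.lt_succ_self n, hn⟩
    · exact Set.subset_iInter hsub
  have h1 := tendsto_measure_iInter_atTop (μ := μ) (s := fun j => DT e (T j))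
    (fun j => (DT_closed he _).measurableSet.nullMeasurableSet) hmono ⟨0, measure_ne_top _ _⟩
  rw [hint] at h1
  have h2 : Tendsto (fun j => μ.real (DT e (T j))) atTop (𝓝 (μ.real C)) :=
    (ENNReal.tendsto_toReal (measure_ne_top μ C)).comp h1
  obtain ⟨j, hj⟩ := (h2.eventually (gt_mem_nhds (show μ.real C < μ.real C + ε by linarith))).exists
  exact ⟨T j, hsub j, hj⟩

/-- **A countable determining family.** -/
theorem exists_family [SecondCountableTopology Ω] : ∃ F : ℕ → Ω → ℝ,
    (∀ j x, 0 ≤ F j x ∧ F j x ≤ 1) ∧ (∀ j, ∃ L, LipschitzWith L (F j)) ∧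
    ∀ (P : ℕ → ProbabilityMeasure Ω) (μ : ProbabilityMeasure Ω),
      (∀ j, Tendsto (fun i => ∫ x, F j x ∂(P i : Measure Ω)) atTop
        (𝓝 (∫ x, F j x ∂(μ : Measure Ω)))) → Tendsto P atTop (𝓝 μ) := by
  obtain ⟨b, hbc, -, hb⟩ := exists_countable_basis Ω
  obtain ⟨e, he⟩ := (hbc.insert ∅).exists_eq_range (Set.insert_nonempty _ _)
  have heo : ∀ n, IsOpen (e n) := by
    intro n
    have h1 : e n ∈ insert ∅ b := by rw [he]; exact ⟨n, rfl⟩
    rcases h1 with h1 | h1
    · rw [h1]; exact isOpen_empty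
    · exact hb.isOpen h1
  have hbU : ∀ U : Set Ω, IsOpen U → U = ⋃ n ∈ {n | e n ⊆ U}, e n := by
    intro U hU
    apply Set.Subset.antisymm
    · intro x hx
      obtain ⟨B, hB, hxB, hBU⟩ := hb.exists_subset_of_mem_open hx hU
      have h1 : B ∈ Set.range e := by rw [← he]; exact Set.mem_insert_of_mem _ hB
      obtain ⟨n, rfl⟩ := h1
      exact Set.mem_iUnion₂.2 ⟨n, hBU, hxB⟩
    · exact Set.iUnion₂_subset fun n hn => hn
  obtain ⟨s, hs⟩ := exists_surjective_nat (Finset ℕ × ℕ)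
  refine ⟨fun j => TI e (s j), fun j x => ⟨TI_nonneg _ _ _, TI_le_one _ _ _⟩,
    fun j => TI_lip _ _, ?_⟩
  intro P μ h
  refine tendsto_of_forall_isClosed_limsup_real_le' fun C hC => ?_
  refine le_of_forall_pos_le_add fun ε hε => ?_
  obtain ⟨T, hCT, hT⟩ := exists_close heo hbU (μ : Measure Ω) hC (half_pos hε)
  have key : Tendsto (fun m : ℕ => ∫ x, TI e (T, m) x ∂(μ : Measure Ω)) atTop
      (𝓝 ((μ : Measure Ω).real (DT e T))) :=
    tendsto_integral_thickenedIndicator_of_isClosed (μ : Measure Ω) (DT_closed heo T)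
      (δs := fun n : ℕ => (1 : ℝ) / (n + 1)) (fun _ => by positivity)
      tendsto_one_div_add_atTop_nhds_zero_nat
  obtain ⟨m, hm⟩ := (key.eventually (gt_mem_nhds (show (μ : Measure Ω).real (DT e T) <
    (μ : Measure Ω).real (DT e T) + ε / 2 by linarith))).exists
  obtain ⟨j, hj⟩ := hs (T, m)
  have h1 := h j
  simp only [hj] at h1
  have h2 : ∀ i, (P i : Measure Ω).real C ≤ ∫ x, TI e (T, m) x ∂(P i : Measure Ω) := by
    intro i
    have h3 : (P i : Measure Ω).real C = ∫ x, C.indicator (fun _ => (1 : ℝ)) x ∂(P i : Measure Ω) := by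
      rw [integral_indicator_const _ hC.measurableSet]; simp
    rw [h3]
    refine integral_mono ((integrable_const _).indicator hC.measurableSet)
      (integrable_thickenedIndicator _ _) fun x => ?_
    by_cases hx : x ∈ C
    · rw [Set.indicator_of_mem hx]
      show (1 : ℝ) ≤ TI e (T, m) x
      unfold TI
      rw [thickenedIndicator_one _ _ (hCT hx)]
      simp
    · rw [Set.indicator_of_notMem hx]
      exact TI_nonneg _ _ _
  have h4 : limsup (fun i => (P i : Measure Ω).real C) atTop ≤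
      limsup (fun i => ∫ x, TI e (T, m) x ∂(P i : Measure Ω)) atTop := by
    refine limsup_le_limsup (Eventually.of_forall h2) ?_ ?_
    · exact isCoboundedUnder_le_of_le atTop (x := 0) fun i => measureReal_nonneg
    · exact h1.isBoundedUnder_le
  rw [h1.limsup_eq] at h4
  linarith

end Pool.Agent.X136.QE
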