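import Pool.Agent.X136.QE.Cur
import Pool.Agent.X136.QE.Count
import Pool.Agent.Results.MP_6c8efb_pr.Displacement

set_option autoImplicit false

/-!
# Almost sure convergence
-/

namespace Pool.Agent.X136.QE

open H974 Finset H342P H984P H984H MeasureTheory ProbabilityTheory Filter Topology
open Pool.Agent.X136.QC (pl fair rho Stop fair_event rho_nonneg)

theorem ae_zero {Ω : Type*} [MeasurableSpace Ω] {P : Measure Ω} [IsProbabilityMeasure P]
    {g : ℕ → Ω → ℝ} (hg : ∀ k, Measurable (g k)) (hb : ∀ k ω, |g k ω| ≤ 2) {c : ℕ → ℝ}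
    (hc : Summable c) (h : ∀ k, ∫ ω, g k ω ^ 2 ∂P ≤ c k) :
    ∀ᵐ ω ∂P, Tendsto (fun k => g k ω) atTop (𝓝 0) := by
  have hc0 : ∀ k, 0 ≤ c k := fun k => (integral_nonneg fun q => sq_nonneg _).trans (h k)
  have hi : ∀ k, Integrable (fun ω => g k ω ^ 2) P := by
    intro k
    refine Integrable.of_bound ((hg k).pow_const 2).aestronglyMeasurable 4
      (Eventually.of_forall fun ω => ?_)
    have := abs_le.1 (hb k ω)
    rw [Real.norm_eq_abs, abs_of_nonneg (sq_nonneg _)]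
    nlinarith
  have h1 : ∫⁻ q, ∑' k, ENNReal.ofReal (g k q ^ 2) ∂P ≠ ⊤ := by
    rw [lintegral_tsum fun k => ((hg k).pow_const 2).ennreal_ofReal.aemeasurable]
    have h2 : ∀ k, ∫⁻ q, ENNReal.ofReal (g k q ^ 2) ∂P ≤ ENNReal.ofReal (c k) := by
      intro k
      rw [← ofReal_integral_eq_lintegral_ofReal (hi k) (Eventually.of_forall fun q => sq_nonneg _)]
      exact ENNReal.ofReal_le_ofReal (h k)
    refine ne_top_of_le_ne_top ?_ (ENNReal.tsum_le_tsum h2)
    rw [← ENNReal.ofReal_tsum_of_nonneg hc0 hc]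
    exact ENNReal.ofReal_ne_top
  have h2 := ae_lt_top (Measurable.ennreal_tsum fun k =>
    ((hg k).pow_const 2).ennreal_ofReal) h1
  filter_upwards [h2] with q hq
  have h3 := ENNReal.tendsto_atTop_zero_of_tsum_ne_top hq.ne
  have h4 : Tendsto (fun k => g k q ^ 2) atTop (𝓝 0) := by
    have h5 := (ENNReal.tendsto_toReal (a := 0) ENNReal.zero_ne_top).comp h3
    rw [ENNReal.toReal_zero] at h5
    refine h5.congr fun k => ?_
    simp only [Function.comp]
    exact ENNReal.toReal_ofReal (sq_nonneg _)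
  have h5 : Tendsto (fun k => |g k q|) atTop (𝓝 0) := by
    have h6 := (Real.continuous_sqrt.tendsto 0).comp h4
    rw [Real.sqrt_zero] at h6
    refine h6.congr fun k => ?_
    simp only [Function.comp]
    exact Real.sqrt_sq_eq_abs _
  exact (tendsto_zero_iff_abs_tendsto_zero _).2 h5

/-- the times -/
def NN (A k : ℕ) : ℕ := (k + 1) ^ A

theorem NN_pos (A k : ℕ) : 1 ≤ NN A k := Nat.one_le_pow _ _ (Nat.succ_pos k)

theorem NN_mono (A k : ℕ) : NN A k ≤ NN A (k + 1) := Nat.pow_le_pow_left (by omega) A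

theorem NN_ratio (A : ℕ) : Tendsto (fun k : ℕ => (NN A (k + 1) : ℝ) / NN A k) atTop (𝓝 1) := by
  have h1 : Tendsto (fun k : ℕ => 1 + 1 / ((k : ℝ) + 1)) atTop (𝓝 (1 + 0)) :=
    tendsto_const_nhds.add tendsto_one_div_add_atTop_nhds_zero_nat
  have h2 := h1.pow A
  rw [add_zero, one_pow] at h2
  refine h2.congr fun k => ?_
  have hk : (k : ℝ) + 1 ≠ 0 := by positivity
  unfold NN
  push_cast
  rw [← div_pow]
  congr 1
  field_simp

theorem NN_ratio' (A : ℕ) : Tendsto (fun k : ℕ => (NN A k : ℝ) / NN A (k + 1)) atTop (𝓝 1) := by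
  have h := (NN_ratio A).inv₀ one_ne_zero
  rw [inv_one] at h
  exact h.congr fun k => by rw [inv_div]

theorem NN_two (A : ℕ) : ∀ᶠ k in atTop, NN A (k + 1) ≤ 2 * NN A k := by
  filter_upwards [(NN_ratio A).eventually (ge_mem_nhds (show (1 : ℝ) < 2 by norm_num))] with k hk
  have h0 : (0 : ℝ) < NN A k := by exact_mod_cast NN_pos A k
  rw [div_le_iff₀ h0] at hk
  exact_mod_cast hk

theorem NN_exists {A : ℕ} (hA : 1 ≤ A) {n : ℕ} (hn : 1 ≤ n) :
    ∃ k, NN A k ≤ n ∧ n < NN A (k + 1) := by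
  have hex : ∃ k, n < NN A (k + 1) := ⟨n, by
    unfold NN
    calc n < n + 1 + 1 := by omega
      _ ≤ (n + 1 + 1) ^ A := Nat.le_self_pow (by omega) _⟩
  refine ⟨Nat.find hex, ?_, Nat.find_spec hex⟩
  rcases Nat.eq_zero_or_pos (Nat.find hex) with h0 | h0
  · rw [h0]
    unfold NN
    simpa using hn
  · have h1 := Nat.find_min hex (Nat.sub_lt h0 one_pos)
    rw [not_lt, Nat.sub_one_add_one (by omega)] at h1
    exact h1

/-- the index of the block of a time -/
theorem NN_index {A : ℕ} (hA : 1 ≤ A) : ∃ κ : ℕ → ℕ, Tendsto κ atTop atTop ∧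
    ∀ n, 1 ≤ n → NN A (κ n) ≤ n ∧ n ≤ NN A (κ n + 1) := by
  have h : ∀ n : ℕ, ∃ k, 1 ≤ n → NN A k ≤ n ∧ n < NN A (k + 1) := by
    intro n
    rcases Nat.eq_zero_or_pos n with h0 | h0
    · exact ⟨0, fun h => by omega⟩
    · obtain ⟨k, hk⟩ := NN_exists hA h0
      exact ⟨k, fun _ => hk⟩
  choose κ hκ using h
  refine ⟨κ, ?_, fun n hn => ⟨(hκ n hn).1, (hκ n hn).2.le⟩⟩
  rw [tendsto_atTop]
  intro b
  filter_upwards [eventually_ge_atTop (NN A b), eventually_ge_atTop 1] with n hn hn1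
  by_contra hlt
  have h1 := (hκ n hn1).2
  have h2 : NN A (κ n + 1) ≤ NN A b := by
    unfold NN
    exact Nat.pow_le_pow_left (by omega) A
  omega

theorem dep_MM {N0 N1 : ℕ} (h0 : 1 ≤ N0) (h1 : N0 ≤ N1) (h2 : N1 ≤ 2 * N0) :
    Dep N1 (MM N0 N1) := (MM_lip h0 h1 h2).dep

/-- the mean oscillation tends to zero -/
theorem mean_MM (A : ℕ) : Tendsto (fun k => ∫ ω, MM (NN A k) (NN A (k + 1)) (path ω) ∂perc)
    atTop (𝓝 0) := by
  obtain ⟨⟨c, hc, hL⟩, ⟨C, hC, hU⟩, -⟩ := Pool.Agent.Results.MP_6c8efb_pr.Displacement.inputs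
  rw [Metric.tendsto_atTop]
  intro ε hε
  obtain ⟨Λ, hΛ, ht⟩ := tight_curve hc hC hL hU (β := 1/2) (by norm_num) (by norm_num)
    (show 0 < ε / 2 by positivity)
  set δ : ℕ → ℝ := fun k => 2 * Λ * (((NN A (k + 1) : ℝ) / NN A k) ^ (4/7 : ℝ) - 1) +
    Λ * (1 - (NN A k : ℝ) / NN A (k + 1)) ^ (1/2 : ℝ) with hδ
  have hδ0 : Tendsto δ atTop (𝓝 0) := by
    have h1 := (NN_ratio A).rpow_const (p := (4/7 : ℝ)) (Or.inl one_ne_zero)
    have h2 := ((tendsto_const_nhds (x := (1 : ℝ))).sub (NN_ratio' A)).rpow_const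
      (p := (1/2 : ℝ)) (Or.inr (by norm_num))
    have h3 := ((h1.sub_const 1).const_mul (2 * Λ)).add (h2.const_mul Λ)
    rw [Real.one_rpow, sub_self, Real.zero_rpow (by norm_num), mul_zero, mul_zero, add_zero] at h3
    exact h3
  obtain ⟨k0, hk0⟩ := (((hδ0.const_mul 2).eventually (gt_mem_nhds (show 2 * (0 : ℝ) < ε / 2 by
    simpa using (half_pos hε)))).and (NN_two A)).exists_forall_of_atTop
  refine ⟨k0, fun k hk => ?_⟩
  obtain ⟨h1, h2⟩ := hk0 k hk
  have hN0 := NN_pos A k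
  have hN1 := NN_mono A k
  have hm : Measurable fun ω : Conf => MM (NN A k) (NN A (k + 1)) (path ω) :=
    measurable_path (dep_MM hN0 hN1 h2)
  have hb : ∀ ω : Conf, MM (NN A k) (NN A (k + 1)) (path ω) ≤
      2 * δ k + {ω | curve (NN A (k + 1)) ω ∉ GoodC (1/2) Λ}.indicator (fun _ => (1 : ℝ)) ω := by
    intro ω
    have hδk : 0 ≤ δ k := by
      have h0 : (0 : ℝ) < NN A k := by exact_mod_cast hN0
      have h01 : (NN A k : ℝ) ≤ NN A (k + 1) := by exact_mod_cast hN1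
      have h02 : (0 : ℝ) < NN A (k + 1) := by linarith
      have q1 : 1 ≤ (NN A (k + 1) : ℝ) / NN A k := by rw [one_le_div h0]; exact h01
      have q2 : 1 ≤ ((NN A (k + 1) : ℝ) / NN A k) ^ (4/7 : ℝ) := Real.one_le_rpow q1 (by norm_num)
      have q3 : (NN A k : ℝ) / NN A (k + 1) ≤ 1 := by rw [div_le_one h02]; exact h01
      have q4 := Real.rpow_nonneg (show 0 ≤ 1 - (NN A k : ℝ) / NN A (k + 1) by linarith) (1/2 : ℝ)
      have q5 : 0 ≤ ((NN A (k + 1) : ℝ) / NN A k) ^ (4/7 : ℝ) - 1 := by linarith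
      have : 0 ≤ Λ := by linarith
      positivity
    by_cases hg : curve (NN A (k + 1)) ω ∈ GoodC (1/2) Λ
    · rw [Set.indicator_of_notMem (by simpa using hg), add_zero]
      refine (min_le_right _ _).trans ?_
      refine Finset.sup'_le _ _ ?_
      intro i hi
      rw [Finset.mem_range] at hi
      rw [curve_eq] at hg
      have a1 := cv_close hN0 (show NN A k ≤ NN A k + i by omega)
        (show NN A k + i ≤ NN A (k + 1) by omega) (show (0 : ℝ) < 1/2 by norm_num)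
        (by linarith) hg
      have a2 := cv_close hN0 (le_refl (NN A k)) hN1 (show (0 : ℝ) < 1/2 by norm_num)
        (by linarith) hg
      have a3 := dist_triangle_right (cv (NN A k + i) (path ω)) (cv (NN A k) (path ω))
        (cv (NN A (k + 1)) (path ω))
      simp only [hδ]
      linarith
    · rw [Set.indicator_of_mem (by simpa using hg)]
      have := MM_le_one (NN A k) (NN A (k + 1)) (path ω)
      linarith
  have hset : MeasurableSet {ω : Conf | curve (NN A (k + 1)) ω ∉ GoodC (1/2) Λ} := by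
    have := (goodC_compact (β := 1/2) (by norm_num) hΛ).isClosed.measurableSet.compl
    exact curve_meas (NN A (k + 1)) this
  have hI : ∫ ω, MM (NN A k) (NN A (k + 1)) (path ω) ∂perc ≤ 2 * δ k + ε / 2 := by
    have hi : Integrable (fun ω : Conf => 2 * δ k +
        {ω | curve (NN A (k + 1)) ω ∉ GoodC (1/2) Λ}.indicator (fun _ => (1 : ℝ)) ω) perc :=
      (integrable_const _).add ((integrable_const _).indicator hset)
    refine (integral_mono_of_nonneg (Eventually.of_forall fun ω => MM_nonneg _ _ _) hi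
      (Eventually.of_forall hb)).trans ?_
    rw [integral_add (integrable_const _) ((integrable_const _).indicator hset),
      integral_indicator_const _ hset]
    have := ht (NN A (k + 1)) (NN_pos A (k + 1))
    simp only [integral_const, probReal_univ, smul_eq_mul, mul_one, one_mul]
    linarith
  rw [Real.dist_eq, sub_zero, abs_of_nonneg (integral_nonneg fun ω => MM_nonneg _ _ _)]
  linarith

/-- the quenched law of the rescaled path -/
noncomputable def lawQ (q : Edg → unitInterval) (n : ℕ) : ProbabilityMeasure C(unitInterval, ℂ) :=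
  ⟨(pl q).map (curve n), Measure.isProbabilityMeasure_map (curve_meas n).aemeasurable⟩

theorem lawQ_int (q : Edg → unitInterval) (n : ℕ) {g : C(unitInterval, ℂ) → ℝ}
    (hg : Continuous g) :
    ∫ f, g f ∂(lawQ q n : Measure C(unitInterval, ℂ)) = ∫ ω, g (cv n (path ω)) ∂pl q := by
  show ∫ f, g f ∂((pl q).map (curve n)) = _
  rw [integral_map (curve_meas n).aemeasurable hg.aestronglyMeasurable]
  rfl

theorem lawH_int' (n : ℕ) {g : C(unitInterval, ℂ) → ℝ} (hg : Continuous g) :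
    ∫ f, g f ∂(lawH n : Measure C(unitInterval, ℂ)) = ∫ ω, g (cv n (path ω)) ∂perc := by
  rw [lawH_int n hg]
  rfl

/-- the deviations of a family along the chosen times tend to zero -/
theorem ae_family (ν : Edg → Measure unitInterval) [∀ e, IsProbabilityMeasure (ν e)]
    (hm : ∀ e, ∫ p, (p : ℝ) ∂ν e = 1 / 2) {ρ : ℝ} (hρ0 : 0 ≤ ρ) (hρ1 : ρ < 1)
    (hρ : ∀ e, rho (ν e) ≤ ρ) {C c : ℝ} (hC : 0 < C) (hc : 0 < c)
    (hmain : ∀ (n : ℕ) (_ : 1 ≤ n) (Φ : (ℕ → St) → ℝ) (L : ℝ)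
      (_ : 0 ≤ L) (_ : ∀ p, |Φ p| ≤ 1) (_ : LipP n (L * (n : ℝ) ^ (-(4/7) : ℝ)) Φ),
      ∫ q, ((∫ ω, Φ (path ω) ∂pl q) - ∫ ω, Φ (path ω) ∂perc) ^ 2 ∂evn ν ≤
        C * (1 + L) * (1 + ρ / (1 - ρ) ^ 2) * (n : ℝ) ^ (-c))
    {A : ℕ} (hA : 2 ≤ A * c) {N : ℕ → ℕ} (hN : ∀ k, NN A k ≤ N k) {L : ℝ} (hL : 0 ≤ L)
    (Φ : ℕ → (ℕ → St) → ℝ) (h1 : ∀ k p, |Φ k p| ≤ 1)
    (h2 : ∀ k, LipP (N k) (L * (N k : ℝ) ^ (-(4/7) : ℝ)) (Φ k)) :
    ∀ᵐ q ∂evn ν, Tendsto (fun k => (∫ ω, Φ k (path ω) ∂pl q) - ∫ ω, Φ k (path ω) ∂perc)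
      atTop (𝓝 0) := by
  have hs : Summable fun k : ℕ => C * (1 + L) * (1 + ρ / (1 - ρ) ^ 2) *
      (1 / ((k : ℝ) + 1) ^ (2 : ℝ)) := by
    refine Summable.mul_left _ ?_
    have h := (Real.summable_one_div_nat_rpow (p := 2)).2 (by norm_num)
    have h' := (summable_nat_add_iff (f := fun n : ℕ => 1 / (n : ℝ) ^ (2 : ℝ)) 1).2 h
    refine h'.congr fun k => ?_
    push_cast
    rfl
  refine ae_zero (fun k => ?_) (fun k q => ?_) hs fun k => ?_
  · exact (measurable_q (h2 k).dep).sub_const _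
  · have e1 := abs_le.1 (abs_q_le (h1 k) (pl q))
    have e2 := abs_le.1 (abs_q_le (h1 k) perc)
    rw [abs_le]
    constructor <;> linarith [e1.1, e1.2, e2.1, e2.2]
  · have hN1 : 1 ≤ N k := (NN_pos A k).trans (hN k)
    refine (hmain (N k) hN1 (Φ k) L hL (h1 k) (h2 k)).trans ?_
    have hP : 0 ≤ C * (1 + L) * (1 + ρ / (1 - ρ) ^ 2) := by
      have : 0 < 1 - ρ := by linarith
      positivity
    refine mul_le_mul_of_nonneg_left ?_ hP
    have hk1 : (1 : ℝ) ≤ (k : ℝ) + 1 := by linarith [(Nat.cast_nonneg k : (0 : ℝ) ≤ k)]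
    have hk0 : (0 : ℝ) < (k : ℝ) + 1 := by linarith
    have e0 : ((k : ℝ) + 1) ^ (A : ℝ) ≤ N k := by
      have h3 : ((NN A k : ℕ) : ℝ) ≤ N k := by exact_mod_cast hN k
      unfold NN at h3
      push_cast at h3
      rwa [Real.rpow_natCast]
    calc (N k : ℝ) ^ (-c) ≤ (((k : ℝ) + 1) ^ (A : ℝ)) ^ (-c) :=
          Real.rpow_le_rpow_of_nonpos (by positivity) e0 (by linarith)
      _ = ((k : ℝ) + 1) ^ (-(A * c)) := by rw [← Real.rpow_mul hk0.le]; congr 1; ring
      _ ≤ ((k : ℝ) + 1) ^ (-(2 : ℝ)) := Real.rpow_le_rpow_of_exponent_le hk1 (by linarith)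
      _ = 1 / ((k : ℝ) + 1) ^ (2 : ℝ) := by rw [Real.rpow_neg hk0.le, one_div]

/-- **Almost every environment.** -/
theorem ae_all (ν : Edg → Measure unitInterval) [∀ e, IsProbabilityMeasure (ν e)]
    (hm : ∀ e, ∫ p, (p : ℝ) ∂ν e = 1 / 2) {ρ : ℝ} (hρ0 : 0 ≤ ρ) (hρ1 : ρ < 1)
    (hρ : ∀ e, rho (ν e) ≤ ρ) {F : ℕ → C(unitInterval, ℂ) → ℝ}
    (hF1 : ∀ j x, 0 ≤ F j x ∧ F j x ≤ 1) (hF2 : ∀ j, ∃ L, LipschitzWith L (F j)) :
    ∀ᵐ q ∂evn ν, ∀ j, Tendsto (fun n => (∫ f, F j f ∂(lawQ q n : Measure C(unitInterval, ℂ))) -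
      ∫ f, F j f ∂(lawH n : Measure C(unitInterval, ℂ))) atTop (𝓝 0) := by
  obtain ⟨C, c, hC, hc, hmain'⟩ := main_var
  have hmain := fun (n : ℕ) (hn : 1 ≤ n) (Φ : (ℕ → St) → ℝ) (L : ℝ) (h1 : 0 ≤ L)
    (h2 : ∀ p, |Φ p| ≤ 1) (h3 : LipP n (L * (n : ℝ) ^ (-(4/7) : ℝ)) Φ) =>
    hmain' ν hm ρ hρ0 hρ1 hρ n hn Φ L h1 h2 h3
  choose K hK using hF2
  set A : ℕ := ⌈2 / c⌉₊ + 1 with hA
  have hAc : 2 ≤ A * c := by
    have h1 : 2 / c ≤ A := by
      rw [hA]
      push_cast
      linarith [Nat.le_ceil (2 / c)]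
    rwa [div_le_iff₀ hc] at h1
  have hA1 : 1 ≤ A := by omega
  obtain ⟨k0, hk0⟩ := (NN_two A).exists_forall_of_atTop
  -- the oscillations
  have hosc := ae_family ν hm hρ0 hρ1 hρ hC hc hmain hAc (N := fun k => NN A (k + 1))
    (fun k => NN_mono A k) (L := 4) (by norm_num)
    (fun k => if k0 ≤ k then MM (NN A k) (NN A (k + 1)) else fun _ => 0) (fun k p => by
      show |(if k0 ≤ k then MM (NN A k) (NN A (k + 1)) else fun _ => 0) p| ≤ 1
      split_ifs with h
      · rw [abs_of_nonneg (MM_nonneg _ _ _)]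
        exact MM_le_one _ _ _
      · simp) (fun k => by
      show LipP (NN A (k + 1)) _ (if k0 ≤ k then MM (NN A k) (NN A (k + 1)) else fun _ => 0)
      split_ifs with h
      · exact MM_lip (NN_pos A k) (NN_mono A k) (hk0 k h)
      · intro p p' d hd _
        simp only [sub_self, abs_zero]
        positivity)
  have hfun : ∀ j, ∀ᵐ q ∂evn ν, Tendsto (fun k => (∫ ω, F j (cv (NN A k) (path ω)) ∂pl q) -
      ∫ ω, F j (cv (NN A k) (path ω)) ∂perc) atTop (𝓝 0) := by
    intro j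
    refine ae_family ν hm hρ0 hρ1 hρ hC hc hmain hAc (N := fun k => NN A k)
      (fun k => le_rfl) (L := K j) (K j).2 (fun k p => F j (cv (NN A k) p)) (fun k p => ?_)
      fun k => lipP_curve (hK j) (NN A k)
    show |F j (cv (NN A k) p)| ≤ 1
    rw [abs_of_nonneg (hF1 j _).1]
    exact (hF1 j _).2
  obtain ⟨κ, hκ, hκ2⟩ := NN_index hA1
  filter_upwards [hosc, ae_all_iff.2 hfun] with q hq1 hq2 j
  have hmean := mean_MM A
  have hq3 : Tendsto (fun k => ∫ ω, MM (NN A k) (NN A (k + 1)) (path ω) ∂pl q) atTop (𝓝 0) := by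
    have h := hq1.congr' (f₂ := fun k => (∫ ω, MM (NN A k) (NN A (k + 1)) (path ω) ∂pl q) -
      ∫ ω, MM (NN A k) (NN A (k + 1)) (path ω) ∂perc) (by
        filter_upwards [eventually_ge_atTop k0] with k hk
        simp only [if_pos hk])
    have h' := h.add hmean
    simp only [sub_add_cancel, add_zero] at h'
    exact h'
  have hlim : Tendsto (fun n => |(∫ ω, F j (cv (NN A (κ n)) (path ω)) ∂pl q) -
      ∫ ω, F j (cv (NN A (κ n)) (path ω)) ∂perc| +
      (1 + (K j : ℝ)) * ((∫ ω, MM (NN A (κ n)) (NN A (κ n + 1)) (path ω) ∂pl q) +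
        ∫ ω, MM (NN A (κ n)) (NN A (κ n + 1)) (path ω) ∂perc)) atTop (𝓝 0) := by
    have e1 := ((hq2 j).comp hκ).abs
    have e2 := (((hq3.comp hκ).add (hmean.comp hκ))).const_mul (1 + (K j : ℝ))
    have e3 := e1.add e2
    simp only [abs_zero, add_zero, mul_zero] at e3
    exact e3
  rw [tendsto_zero_iff_abs_tendsto_zero]
  refine squeeze_zero' (Eventually.of_forall fun n => abs_nonneg _) ?_ hlim
  filter_upwards [eventually_ge_atTop 1, hκ.eventually (eventually_ge_atTop k0)] with n hn hk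
  obtain ⟨g1, g2⟩ := hκ2 n hn
  set N0 := NN A (κ n) with hN0
  set N1 := NN A (κ n + 1) with hN1
  have hN0p : 1 ≤ N0 := NN_pos A _
  have hd : Dep N1 (MM N0 N1) := dep_MM hN0p (g1.trans g2) (hk0 _ hk)
  -- comparison for one probability measure
  have key : ∀ P : Measure Conf, IsProbabilityMeasure P →
      |(∫ ω, F j (cv n (path ω)) ∂P) - ∫ ω, F j (cv N0 (path ω)) ∂P| ≤
        (1 + (K j : ℝ)) * ∫ ω, MM N0 N1 (path ω) ∂P := by
    intro P hP
    have hi : ∀ m, Integrable (fun ω => F j (cv m (path ω))) P := by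
      intro m
      refine Integrable.of_bound (C := 1)
        (measurable_path (lipP_curve (hK j) m).dep).aestronglyMeasurable
        (Eventually.of_forall fun ω => ?_)
      rw [Real.norm_eq_abs, abs_of_nonneg (hF1 j _).1]
      exact (hF1 j _).2
    have hM : Integrable (fun ω => MM N0 N1 (path ω)) P := by
      refine Integrable.of_bound (C := 1) (measurable_path hd).aestronglyMeasurable
        (Eventually.of_forall fun ω => ?_)
      rw [Real.norm_eq_abs, abs_of_nonneg (MM_nonneg _ _ _)]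
      exact MM_le_one _ _ _
    rw [← integral_sub (hi n) (hi N0), ← integral_const_mul]
    refine (abs_integral_le_integral_abs).trans ?_
    refine integral_mono_of_nonneg (Eventually.of_forall fun ω => abs_nonneg _)
      (hM.const_mul _) (Eventually.of_forall fun ω => ?_)
    show |F j (cv n (path ω)) - F j (cv N0 (path ω))| ≤ (1 + (K j : ℝ)) * MM N0 N1 (path ω)
    have b1 := le_MM g1 g2 (path ω)
    have b2 : |F j (cv n (path ω)) - F j (cv N0 (path ω))| ≤
        (1 + (K j : ℝ)) * min 1 (dist (cv n (path ω)) (cv N0 (path ω))) := by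
      have hK0 : (0 : ℝ) ≤ K j := (K j).2
      rcases le_total 1 (dist (cv n (path ω)) (cv N0 (path ω))) with h | h
      · rw [min_eq_left h]
        have c1 := hF1 j (cv n (path ω))
        have c2 := hF1 j (cv N0 (path ω))
        have : |F j (cv n (path ω)) - F j (cv N0 (path ω))| ≤ 1 := by
          rw [abs_le]
          constructor <;> linarith [c1.1, c1.2, c2.1, c2.2]
        linarith
      · rw [min_eq_right h]
        have c1 := (hK j).dist_le_mul (cv n (path ω)) (cv N0 (path ω))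
        rw [Real.dist_eq] at c1
        have c2 : 0 ≤ dist (cv n (path ω)) (cv N0 (path ω)) := dist_nonneg
        linarith
    exact b2.trans (mul_le_mul_of_nonneg_left b1 (by have : (0 : ℝ) ≤ K j := (K j).2; linarith))
  have k1 := key (pl q) inferInstance
  have k2 := key perc inferInstance
  simp only [Function.comp]
  rw [lawQ_int q n (hK j).continuous, lawH_int' n (hK j).continuous]
  rw [abs_le] at k1 k2
  have k3 := le_abs_self ((∫ ω, F j (cv N0 (path ω)) ∂pl q) - ∫ ω, F j (cv N0 (path ω)) ∂perc)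
  have k4 := neg_abs_le ((∫ ω, F j (cv N0 (path ω)) ∂pl q) - ∫ ω, F j (cv N0 (path ω)) ∂perc)
  rw [abs_le]
  constructor <;> linarith [k1.1, k1.2, k2.1, k2.2]

/-- **The quenched scaling limit.** -/
theorem quenched (ν : Edg → Measure unitInterval) [∀ e, IsProbabilityMeasure (ν e)]
    (hm : ∀ e, ∫ p, (p : ℝ) ∂ν e = 1 / 2) {ρ : ℝ} (hρ0 : 0 ≤ ρ) (hρ1 : ρ < 1)
    (hρ : ∀ e, rho (ν e) ≤ ρ) :
    ∀ᵐ q ∂evn ν, ∀ φ : ℕ → ℕ, Tendsto φ atTop atTop →
      ∀ μ : ProbabilityMeasure C(unitInterval, ℂ),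
        Tendsto (fun i => lawQ q (φ i)) atTop (𝓝 μ) ↔ Tendsto (fun i => lawH (φ i)) atTop (𝓝 μ) := by
  obtain ⟨F, hF1, hF2, hF3⟩ := exists_family (Ω := C(unitInterval, ℂ))
  filter_upwards [ae_all ν hm hρ0 hρ1 hρ hF1 hF2] with q hq φ hφ μ
  have hconv : ∀ (P : ℕ → ProbabilityMeasure C(unitInterval, ℂ)), Tendsto P atTop (𝓝 μ) →
      ∀ j, Tendsto (fun i => ∫ x, F j x ∂(P i : Measure C(unitInterval, ℂ))) atTop
        (𝓝 (∫ x, F j x ∂(μ : Measure C(unitInterval, ℂ)))) := by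
    intro P hP j
    obtain ⟨L, hL⟩ := hF2 j
    rw [ProbabilityMeasure.tendsto_iff_forall_integral_tendsto] at hP
    exact hP (BoundedContinuousFunction.mkOfBound ⟨F j, hL.continuous⟩ 1 fun x y => by
      have c1 := hF1 j x
      have c2 := hF1 j y
      rw [Real.dist_eq, abs_le]
      constructor
      · show -1 ≤ F j x - F j y
        linarith [c1.1, c1.2, c2.1, c2.2]
      · show F j x - F j y ≤ 1
        linarith [c1.1, c1.2, c2.1, c2.2])
  constructor
  · intro h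
    refine hF3 _ μ fun j => ?_
    have h1 := hconv _ h j
    have h2 := h1.sub ((hq j).comp hφ)
    simp only [Function.comp, sub_sub_cancel, sub_zero] at h2
    exact h2
  · intro h
    refine hF3 _ μ fun j => ?_
    have h1 := hconv _ h j
    have h2 := ((hq j).comp hφ).add h1
    simp only [Function.comp, sub_add_cancel, zero_add] at h2
    exact h2

end Pool.Agent.X136.QE
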