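import Pool.Agent.X136.QE.Frozen

set_option autoImplicit false

/-!
# The environment near the origin does not matter
-/

namespace Pool.Agent.X136.QE

open Finset MeasureTheory ProbabilityTheory Filter Topology
open Pool.Agent.X136.QC (pl fair rho Stop fair_event rho_nonneg)

section General

variable {E α : Type*}

open Classical in
/-- `η` on `B`, `ω` off `B` -/
noncomputable def mixc (B : Set E) (ω η : E → α) : E → α := fun e => if e ∈ B then η e else ω e

theorem mixc_mem {B : Set E} {ω η : E → α} {e : E} (h : e ∈ B) : mixc B ω η e = η e := by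
  unfold mixc
  rw [if_pos h]

theorem mixc_not {B : Set E} {ω η : E → α} {e : E} (h : e ∉ B) : mixc B ω η e = ω e := by
  unfold mixc
  rw [if_neg h]

theorem measurable_mixc [MeasurableSpace α] (B : Set E) :
    Measurable fun z : (E → α) × (E → α) => mixc B z.1 z.2 := by
  refine measurable_pi_lambda _ fun e => ?_
  by_cases h : e ∈ B
  · simp only [mixc_mem h]
    exact (measurable_pi_apply e).comp measurable_snd
  · simp only [mixc_not h]
    exact (measurable_pi_apply e).comp measurable_fst

/-- the law of a mixture of two independent configurations -/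
theorem map_mixc (B : Set E) (q q' : E → unitInterval) :
    ((pl q).prod (pl q')).map (fun z : (E → Bool) × (E → Bool) => mixc B z.1 z.2) =
      pl (mixc B q q') := by
  classical
  unfold pl
  apply Measure.eq_infinitePi
  intro s t ht
  have hms : MeasurableSet (Set.pi (↑s : Set E) t) :=
    MeasurableSet.pi (Finset.countable_toSet _) fun _ _ => ht _
  rw [Measure.map_apply (measurable_mixc B) hms]
  have h1 : (fun z : (E → Bool) × (E → Bool) => mixc B z.1 z.2) ⁻¹' (Set.pi (↑s : Set E) t) =
      (Set.pi (↑(s.filter fun e => e ∉ B) : Set E) t) ×ˢ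
        (Set.pi (↑(s.filter fun e => e ∈ B) : Set E) t) := by
    ext ⟨ω, η⟩
    simp only [Set.mem_preimage, Set.mem_pi, Set.mem_prod, Finset.mem_coe, mem_filter]
    constructor
    · intro h
      refine ⟨fun e he => ?_, fun e he => ?_⟩
      · have := h e he.1
        rwa [mixc_not he.2] at this
      · have := h e he.1
        rwa [mixc_mem he.2] at this
    · rintro ⟨h, h'⟩ e he
      by_cases hB : e ∈ B
      · rw [mixc_mem hB]
        exact h' e ⟨he, hB⟩
      · rw [mixc_not hB]
        exact h e ⟨he, hB⟩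
  rw [h1, Measure.prod_prod, Measure.infinitePi_pi _ (fun _ _ => ht _),
    Measure.infinitePi_pi _ (fun _ _ => ht _), mul_comm,
    ← prod_filter_mul_prod_filter_not s (fun e => e ∈ B)]
  congr 1
  · refine prod_congr rfl fun e he => ?_
    rw [mixc_mem (mem_filter.1 he).2]
  · refine prod_congr rfl fun e he => ?_
    rw [mixc_not (mem_filter.1 he).2]

/-- the parameter `1 / 2` -/
noncomputable def half : unitInterval := ⟨1/2, by norm_num, by norm_num⟩

theorem fair_eq : fair E = pl fun _ => half := rfl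

/-- the law of the environment which is made fair on `B` -/
theorem map_env (B : Set E) (ν : E → Measure unitInterval) [∀ e, IsProbabilityMeasure (ν e)] :
    (evn ν).map (fun q => mixc B q fun _ => half) =
      evn (mixc B ν fun _ => Measure.dirac half) := by
  classical
  unfold evn
  have h1 : (fun (q : E → unitInterval) => mixc B q fun _ => half) =
      fun q e => (if e ∈ B then fun _ => half else id : unitInterval → unitInterval) (q e) := by
    funext q e
    by_cases h : e ∈ B
    · rw [mixc_mem h, if_pos h]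
    · rw [mixc_not h, if_neg h]
      rfl
  rw [h1, Measure.infinitePi_map_pi (μ := ν)
    (f := fun e => (if e ∈ B then fun _ => half else id : unitInterval → unitInterval))]
  · congr 1
    funext e
    by_cases h : e ∈ B
    · rw [mixc_mem h, if_pos h, Measure.map_const, measure_univ, one_smul]
    · rw [mixc_not h, if_neg h, Measure.map_id]
  · intro e
    split_ifs
    · exact measurable_const
    · exact measurable_id

instance (B : Set E) (ν : E → Measure unitInterval) [∀ e, IsProbabilityMeasure (ν e)] (e : E) :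
    IsProbabilityMeasure (mixc B ν (fun _ => Measure.dirac half) e) := by
  classical
  unfold mixc
  split_ifs
  · infer_instance
  · infer_instance

theorem rho_dirac : rho (Measure.dirac half) = 0 := by
  unfold rho
  rw [integral_dirac]
  simp [half]

end General

open H974 H342P H984P H984H

/-- the edges near the origin -/
def BB (r : ℕ) : Set Edg := {e | |e.1| < r ∧ e.2.1 < r}

/-- the path visits the box of radius `r` after time `m` -/
def Late (r m : ℕ) (ω : Conf) : Prop := ∃ l, m ≤ l ∧ sd (path ω l).1 (0, 0) ≤ r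

theorem not_late {r m : ℕ} {ω : Conf} (h : ¬ Late r m ω) {k : ℕ} (hk : m ≤ k) :
    xe (path ω k) ∉ BB r := by
  intro h2
  apply h
  refine ⟨k, hk, ?_⟩
  have h3 := xe_pos (path ω k)
  have h4 := path_nonneg ω k
  obtain ⟨h5, h6⟩ := h2
  rw [abs_lt] at h5
  unfold sd
  rw [max_le_iff, abs_le, abs_le]
  simp only [sub_zero]
  omega

theorem gam_dist (ω : Conf) {i j : ℕ} (h : i ≤ j) :
    dist (gam ω i) (gam ω j) ≤ ((j : ℝ) - i) / 2 := by
  induction j, h using Nat.le_induction with
  | base => simp
  | succ j hj ih =>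
    have h1 := gam_step ω j
    have h2 := dist_triangle (gam ω i) (gam ω j) (gam ω (j + 1))
    push_cast
    linarith

/-- no infinite free clusters -/
def NI (ω : Conf) : Prop := (∀ v : Vtx, ∃ R : ℤ, ∀ w, Reach (FO ω) v w → sd v w < R) ∧
    ∀ v : Vtx, ∃ R : ℤ, ∀ w, DReach (FC ω) v w → sd v w < R

/-- **The two paths are close for all times.** -/
theorem close_paths {r m : ℕ} {ω η : Conf} (h1 : ¬ Late r m ω) (h2 : ¬ Late r m (mixc (BB r) ω η))
    (h3 : NI ω) (h4 : NI (mixc (BB r) ω η)) (j : ℕ) :
    dist (gam ω j) (gam (mixc (BB r) ω η) j) ≤ m := by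
  set ω' := mixc (BB r) ω η with hω'
  obtain ⟨s', hs'⟩ := couple2 (ω := ω) (ω' := ω') (s := m)
    (fun k hk _ => (mixc_not (not_late h1 hk)).symm) h4.1 h4.2
  obtain ⟨s'', hs''⟩ := couple2 (ω := ω') (ω' := ω) (s := m)
    (fun k hk _ => mixc_not (not_late h2 hk)) h3.1 h3.2
  have hle : s' ≤ 2 * m := by
    rcases le_or_gt s' m with h | h
    · omega
    · have e1 := hs' 0
      have e2 := hs'' (s' - m)
      rw [show m + (s' - m) = s' + 0 by omega, e1] at e2
      have e3 : s'' + (s' - m) = m + 0 := by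
        by_contra hne
        exact path_inj ω hne e2
      omega
  have hm0 : (0 : ℝ) ≤ m := Nat.cast_nonneg m
  rcases le_or_gt m j with h | h
  · have e1 : gam ω j = gam ω' (s' + (j - m)) := by
      unfold gam
      rw [hs' (j - m), show m + (j - m) = j by omega]
    rw [e1]
    rcases le_total m s' with h5 | h5
    · rw [dist_comm]
      refine (gam_dist ω' (show j ≤ s' + (j - m) by omega)).trans ?_
      have e2 : ((s' + (j - m) : ℕ) : ℝ) = s' + j - m := by
        rw [Nat.cast_add, Nat.cast_sub h]; ring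
      rw [e2]
      have : (s' : ℝ) ≤ 2 * m := by exact_mod_cast hle
      linarith
    · refine (gam_dist ω' (show s' + (j - m) ≤ j by omega)).trans ?_
      have e2 : ((s' + (j - m) : ℕ) : ℝ) = s' + j - m := by
        rw [Nat.cast_add, Nat.cast_sub h]; ring
      rw [e2]
      have : (0 : ℝ) ≤ s' := Nat.cast_nonneg _
      linarith
  · have e0 : gam ω 0 = gam ω' 0 := rfl
    have e1 := gam_dist ω (Nat.zero_le j)
    have e2 := gam_dist ω' (Nat.zero_le j)
    have e3 := dist_triangle (gam ω j) (gam ω 0) (gam ω' j)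
    rw [dist_comm] at e1
    nth_rewrite 2 [e0] at e3
    have : (j : ℝ) ≤ m := by exact_mod_cast h.le
    simp only [Nat.cast_zero, sub_zero] at e1 e2
    linarith

/-- `Φ` is Lipschitz in the positions of the first `n` steps -/
def LipP (n : ℕ) (L : ℝ) (Φ : (ℕ → St) → ℝ) : Prop :=
  ∀ (p p' : ℕ → St) (d : ℝ), 0 ≤ d → (∀ k ≤ n, dist (place (p k)) (place (p' k)) ≤ d) →
    |Φ p - Φ p'| ≤ L * d

theorem LipP.dep {n : ℕ} {L : ℝ} {Φ : (ℕ → St) → ℝ} (h : LipP n L Φ) : Dep n Φ := by
  intro p p' hp
  have h1 := h p p' 0 le_rfl fun k hk => by rw [hp k hk, dist_self]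
  rw [mul_zero] at h1
  have := abs_nonpos_iff.1 h1
  linarith

theorem measurable_path {n : ℕ} {Φ : (ℕ → St) → ℝ} (h : Dep n Φ) :
    Measurable fun ω : Conf => Φ (path ω) := Perc_meas_dep n Φ h

theorem meas_late (r m : ℕ) : MeasurableSet {ω : Conf | Late r m ω} := by
  have h1 : {ω : Conf | Late r m ω} = ⋃ l ∈ {l : ℕ | m ≤ l},
      ⋃ τ ∈ {τ : St | sd τ.1 (0, 0) ≤ r}, {ω : Conf | path ω l = τ} := by
    ext ω
    simp only [Set.mem_iUnion, exists_prop, Set.mem_ofPred_eq]
    constructor
    · rintro ⟨l, hl, hr⟩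
      exact ⟨l, hl, _, hr, rfl⟩
    · rintro ⟨l, hl, τ, hr, rfl⟩
      exact ⟨l, hl, hr⟩
  rw [h1]
  exact MeasurableSet.biUnion (Set.to_countable _) fun l _ =>
    MeasurableSet.biUnion (Set.to_countable _) fun τ _ => Perc_meas_path l τ

theorem map_mixc_fair (B : Set Edg) :
    ((fair Edg).prod (fair Edg)).map (fun z : Conf × Conf => mixc B z.1 z.2) = fair Edg := by
  have h := map_mixc B (fun _ : Edg => half) (fun _ => half)
  have e : mixc B (fun _ : Edg => half) (fun _ => half) = fun _ => half := by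
    funext e
    by_cases h : e ∈ B
    · rw [mixc_mem h]
    · rw [mixc_not h]
  rw [e] at h
  exact h

theorem noinf_fair : ∀ᵐ ω ∂fair Edg, NI ω := by
  rw [← perc_eq_fair]
  exact noinf

/-- the mean difference of the two paths -/
theorem diff_bound : ∃ a A : ℝ, 0 < a ∧ 0 < A ∧ ∀ (n : ℕ) (Φ : (ℕ → St) → ℝ) (L : ℝ),
    (∀ p, |Φ p| ≤ 1) → 0 ≤ L → LipP n L Φ → ∀ r R : ℕ, 1 ≤ r → 1 ≤ R →
    ∫ z : Conf × Conf, |Φ (path z.1) - Φ (path (mixc (BB r) z.1 z.2))| ∂((fair Edg).prod (fair Edg)) ≤
      L * (8 * (R : ℝ) ^ 2) + 4 * (A * ((r : ℝ) / R) ^ a) := by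
  obtain ⟨a, A, ha, hA, hlate⟩ := late_prob
  refine ⟨a, A, ha, hA, ?_⟩
  intro n Φ L hΦ1 hL hLip r R hr hR
  set m : ℕ := 8 * R ^ 2 with hm
  set μ := (fair Edg).prod (fair Edg) with hμ
  have hmix : Measurable fun z : Conf × Conf => mixc (BB r) z.1 z.2 := measurable_mixc _
  set LS : Set Conf := {ω | Late r m ω} with hLS
  have hLm : MeasurableSet LS := meas_late r m
  have hlp : (fair Edg).real LS ≤ A * ((r : ℝ) / R) ^ a := by
    rw [← perc_eq_fair]
    exact hlate r R hr hR
  have n1 : ∀ᵐ z ∂μ, NI z.1 :=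
    (Measure.quasiMeasurePreserving_fst (μ := fair Edg) (ν := fair Edg)).ae noinf_fair
  have n2 : ∀ᵐ z ∂μ, NI (mixc (BB r) z.1 z.2) := by
    have h1 : ∀ᵐ ω ∂(μ.map fun z : Conf × Conf => mixc (BB r) z.1 z.2), NI ω := by
      rw [hμ, map_mixc_fair]
      exact noinf_fair
    exact ae_of_ae_map hmix.aemeasurable h1
  have hb : ∀ᵐ z ∂μ, |Φ (path z.1) - Φ (path (mixc (BB r) z.1 z.2))| ≤
      L * m + (2 * LS.indicator (fun _ => (1 : ℝ)) z.1 +
        2 * LS.indicator (fun _ => (1 : ℝ)) (mixc (BB r) z.1 z.2)) := by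
    filter_upwards [n1, n2] with z h1 h2
    have g1 := hΦ1 (path z.1)
    have g2 := hΦ1 (path (mixc (BB r) z.1 z.2))
    have g3 : |Φ (path z.1) - Φ (path (mixc (BB r) z.1 z.2))| ≤ 2 := by
      rw [abs_le] at g1 g2 ⊢
      constructor <;> linarith
    have i0 : ∀ ω : Conf, 0 ≤ LS.indicator (fun _ => (1 : ℝ)) ω := fun ω =>
      Set.indicator_nonneg (fun _ _ => zero_le_one) _
    have hLm0 : 0 ≤ L * m := mul_nonneg hL (Nat.cast_nonneg _)
    by_cases k1 : z.1 ∈ LS
    · rw [Set.indicator_of_mem k1]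
      have := i0 (mixc (BB r) z.1 z.2)
      linarith
    · by_cases k2 : mixc (BB r) z.1 z.2 ∈ LS
      · rw [Set.indicator_of_mem k2]
        have := i0 z.1
        linarith
      · have h3 := hLip (path z.1) (path (mixc (BB r) z.1 z.2)) m (Nat.cast_nonneg _)
          fun k _ => close_paths (η := z.2) k1 k2 h1 h2 k
        have a1 := i0 z.1
        have a2 := i0 (mixc (BB r) z.1 z.2)
        linarith
  have hind : Integrable (LS.indicator fun _ => (1 : ℝ)) (fair Edg) :=
    (integrable_const 1).indicator hLm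
  have i1 : Integrable (fun z : Conf × Conf => LS.indicator (fun _ => (1 : ℝ)) z.1) μ :=
    hind.comp_fst _
  have i2 : Integrable (fun z : Conf × Conf =>
      LS.indicator (fun _ => (1 : ℝ)) (mixc (BB r) z.1 z.2)) μ := by
    have h1 : Integrable (LS.indicator fun _ => (1 : ℝ))
        (μ.map fun z : Conf × Conf => mixc (BB r) z.1 z.2) := by
      rw [hμ, map_mixc_fair]
      exact hind
    exact h1.comp_measurable hmix
  have v0 : ∫ ω, LS.indicator (fun _ => (1 : ℝ)) ω ∂fair Edg = (fair Edg).real LS := by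
    rw [integral_indicator_const _ hLm, smul_eq_mul, mul_one]
  have v1 : ∫ z : Conf × Conf, LS.indicator (fun _ => (1 : ℝ)) z.1 ∂μ = (fair Edg).real LS := by
    rw [hμ, integral_fun_fst, v0]
    simp
  have v2 : ∫ z : Conf × Conf, LS.indicator (fun _ => (1 : ℝ)) (mixc (BB r) z.1 z.2) ∂μ =
      (fair Edg).real LS := by
    rw [← v0]
    have h1 := integral_map (μ := μ) hmix.aemeasurable
      (f := LS.indicator fun _ => (1 : ℝ)) (by
        rw [hμ, map_mixc_fair]
        exact hind.aestronglyMeasurable)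
    rw [← h1, hμ, map_mixc_fair]
  have hm1 : Measurable fun z : Conf × Conf =>
      |Φ (path z.1) - Φ (path (mixc (BB r) z.1 z.2))| := by
    have := measurable_path hLip.dep
    exact ((this.comp measurable_fst).sub (this.comp hmix)).abs
  have hint : Integrable (fun z : Conf × Conf =>
      |Φ (path z.1) - Φ (path (mixc (BB r) z.1 z.2))|) μ := by
    refine Integrable.of_bound hm1.aestronglyMeasurable 2 (Eventually.of_forall fun z => ?_)
    have g1 := hΦ1 (path z.1)
    have g2 := hΦ1 (path (mixc (BB r) z.1 z.2))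
    rw [Real.norm_eq_abs, abs_abs]
    rw [abs_le] at g1 g2 ⊢
    constructor <;> linarith
  have i3 : Integrable (fun z : Conf × Conf => 2 * LS.indicator (fun _ => (1 : ℝ)) z.1 +
      2 * LS.indicator (fun _ => (1 : ℝ)) (mixc (BB r) z.1 z.2)) μ :=
    (i1.const_mul 2).add (i2.const_mul 2)
  have i4 : Integrable (fun z : Conf × Conf => L * (m : ℝ) +
      (2 * LS.indicator (fun _ => (1 : ℝ)) z.1 +
      2 * LS.indicator (fun _ => (1 : ℝ)) (mixc (BB r) z.1 z.2))) μ :=
    (integrable_const _).add i3
  have h1 := integral_mono_ae hint i4 hb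
  refine h1.trans ?_
  have e1 : ∫ z : Conf × Conf, (L * (m : ℝ) +
      (2 * LS.indicator (fun _ => (1 : ℝ)) z.1 +
      2 * LS.indicator (fun _ => (1 : ℝ)) (mixc (BB r) z.1 z.2))) ∂μ =
      L * m + (2 * (fair Edg).real LS + 2 * (fair Edg).real LS) := by
    rw [integral_add (integrable_const _) i3,
      integral_add (i1.const_mul 2) (i2.const_mul 2), integral_const_mul (2 : ℝ),
      integral_const_mul (2 : ℝ), v1, v2]
    simp
  refine (le_of_eq e1).trans ?_
  have e2 : (m : ℝ) = 8 * (R : ℝ) ^ 2 := by rw [hm]; push_cast; ring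
  rw [e2]
  linarith

end Pool.Agent.X136.QE
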