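import Pool.Agent.X136.QE.Var
import Pool.Agent.H984R4.HN.FinalH

set_option autoImplicit false

/-!
# Functionals of the rescaled path
-/

namespace Pool.Agent.X136.QE

open H974 Finset H342P H984P H984H MeasureTheory ProbabilityTheory Filter Topology
open Pool.Agent.X136.QC (pl fair rho Stop fair_event rho_nonneg)

/-- the rescaled curve of a sequence of states -/
noncomputable def cv (n : ℕ) (p : ℕ → St) : C(unitInterval, ℂ) :=
  H984N.pl n (fun k => (((n : ℝ) ^ (-(4/7) : ℝ) : ℝ) : ℂ) * place (p k))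

theorem curve_eq (n : ℕ) (ω : Conf) : curve n ω = cv n (path ω) := rfl

theorem pl_dist {N : ℕ} {p p' : ℕ → ℂ} {d : ℝ} (h : ∀ k ≤ N, dist (p k) (p' k) ≤ d)
    (s : unitInterval) : dist (H984N.pl N p s) (H984N.pl N p' s) ≤ d := by
  rcases Nat.eq_zero_or_pos N with rfl | hN
  · have := h 0 le_rfl
    rw [H984N.pl_apply', H984N.pl_apply']
    simpa using this
  · obtain ⟨k, hk, h1, h2⟩ := H984N.pl_exists_seg hN s
    rw [H984N.pl_seg hk h1 h2, H984N.pl_seg hk h1 h2]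
    set θ : ℝ := (s : ℝ) * N - k with hθ
    have hθ0 : 0 ≤ θ := by rw [hθ]; linarith
    have hθ1 : θ ≤ 1 := by rw [hθ]; linarith
    have e : p k + (θ : ℂ) * (p (k + 1) - p k) - (p' k + (θ : ℂ) * (p' (k + 1) - p' k)) =
        ((1 - θ : ℝ) : ℂ) * (p k - p' k) + (θ : ℂ) * (p (k + 1) - p' (k + 1)) := by
      push_cast
      ring
    rw [dist_eq_norm, e]
    have h3 := h k hk.le
    have h4 := h (k + 1) hk
    rw [dist_eq_norm] at h3 h4
    calc ‖((1 - θ : ℝ) : ℂ) * (p k - p' k) + (θ : ℂ) * (p (k + 1) - p' (k + 1))‖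
        ≤ ‖((1 - θ : ℝ) : ℂ) * (p k - p' k)‖ + ‖(θ : ℂ) * (p (k + 1) - p' (k + 1))‖ := norm_add_le _ _
      _ = (1 - θ) * ‖p k - p' k‖ + θ * ‖p (k + 1) - p' (k + 1)‖ := by
          rw [norm_mul, norm_mul, Complex.norm_real, Complex.norm_real, Real.norm_eq_abs,
            Real.norm_eq_abs, abs_of_nonneg (by linarith : 0 ≤ 1 - θ), abs_of_nonneg hθ0]
      _ ≤ (1 - θ) * d + θ * d := by gcongr
      _ = d := by ring

theorem cv_dist {n : ℕ} {p p' : ℕ → St} {d : ℝ} (hd : 0 ≤ d)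
    (h : ∀ k ≤ n, dist (place (p k)) (place (p' k)) ≤ d) :
    dist (cv n p) (cv n p') ≤ (n : ℝ) ^ (-(4/7) : ℝ) * d := by
  have hn : 0 ≤ (n : ℝ) ^ (-(4/7) : ℝ) := Real.rpow_nonneg (Nat.cast_nonneg _) _
  rw [ContinuousMap.dist_le (by positivity)]
  intro s
  refine pl_dist (fun k hk => ?_) s
  rw [dist_eq_norm, ← mul_sub, norm_mul, Complex.norm_real, Real.norm_eq_abs, abs_of_nonneg hn,
    ← dist_eq_norm]
  exact mul_le_mul_of_nonneg_left (h k hk) hn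

/-- Lipschitz functions of the curve -/
theorem lipP_curve {F : C(unitInterval, ℂ) → ℝ} {K : NNReal} (hF : LipschitzWith K F) (n : ℕ) :
    LipP n (K * (n : ℝ) ^ (-(4/7) : ℝ)) fun p => F (cv n p) := by
  intro p p' d hd h
  have h1 := hF.dist_le_mul (cv n p) (cv n p')
  rw [Real.dist_eq] at h1
  refine h1.trans ?_
  rw [mul_assoc]
  exact mul_le_mul_of_nonneg_left (cv_dist hd h) K.2

/-- the curve at a smaller time -/
theorem cv_scale {n N : ℕ} (hn : 1 ≤ n) (hnN : n ≤ N) (p : ℕ → St) (s u : unitInterval)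
    (hu : (u : ℝ) * N = s * n) :
    cv n p s = ((((N : ℝ) / n) ^ (4/7 : ℝ) : ℝ) : ℂ) * cv N p u := by
  have hn0 : (0 : ℝ) < n := by exact_mod_cast hn
  have hN0 : (0 : ℝ) < N := lt_of_lt_of_le hn0 (by exact_mod_cast hnN)
  have hc : (((n : ℝ) ^ (-(4/7) : ℝ) : ℝ) : ℂ) =
      ((((N : ℝ) / n) ^ (4/7 : ℝ) : ℝ) : ℂ) * (((N : ℝ) ^ (-(4/7) : ℝ) : ℝ) : ℂ) := by
    rw [← Complex.ofReal_mul]
    congr 1
    rw [Real.div_rpow hN0.le hn0.le, Real.rpow_neg hn0.le, Real.rpow_neg hN0.le]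
    have : (N : ℝ) ^ (4/7 : ℝ) ≠ 0 := by positivity
    field_simp
  have hsn : (s : ℝ) * n ≤ n := by
    have := s.2.2
    nlinarith
  unfold cv
  rw [H984N.pl_apply', H984N.pl_apply', mul_add, ← mul_assoc, ← hc]
  congr 1
  rw [Finset.mul_sum]
  have h1 : ∑ k ∈ Finset.range N, ((((N : ℝ) / n) ^ (4/7 : ℝ) : ℝ) : ℂ) *
      (((H984N.clamp ((u : ℝ) * N - k) : ℝ) : ℂ) *
        ((((N : ℝ) ^ (-(4/7) : ℝ) : ℝ) : ℂ) * place (p (k + 1)) -
          (((N : ℝ) ^ (-(4/7) : ℝ) : ℝ) : ℂ) * place (p k))) =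
      ∑ k ∈ Finset.range n, ((((N : ℝ) / n) ^ (4/7 : ℝ) : ℝ) : ℂ) *
      (((H984N.clamp ((u : ℝ) * N - k) : ℝ) : ℂ) *
        ((((N : ℝ) ^ (-(4/7) : ℝ) : ℝ) : ℂ) * place (p (k + 1)) -
          (((N : ℝ) ^ (-(4/7) : ℝ) : ℝ) : ℂ) * place (p k))) := by
    symm
    refine Finset.sum_subset (Finset.range_mono hnN) ?_
    intro k _ hk
    rw [Finset.mem_range, not_lt] at hk
    have hk' : (n : ℝ) ≤ k := by exact_mod_cast hk
    rw [H984N.pl_clamp_zero (by rw [hu]; linarith)]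
    simp
  rw [h1]
  refine Finset.sum_congr rfl fun k _ => ?_
  rw [hu, hc]
  ring

/-- distance of the curves at two times, for a good curve -/
theorem cv_close {N0 n N1 : ℕ} (h0 : 1 ≤ N0) (h1 : N0 ≤ n) (h2 : n ≤ N1) {β Λ : ℝ} (hβ : 0 < β)
    (hΛ : 0 ≤ Λ) {p : ℕ → St} (hg : cv N1 p ∈ GoodC β Λ) :
    dist (cv n p) (cv N1 p) ≤ 2 * Λ * (((N1 : ℝ) / N0) ^ (4/7 : ℝ) - 1) +
      Λ * (1 - (N0 : ℝ) / N1) ^ β := by
  have hN0 : (0 : ℝ) < N0 := by exact_mod_cast h0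
  have hn0 : (N0 : ℝ) ≤ n := by exact_mod_cast h1
  have hn1 : (n : ℝ) ≤ N1 := by exact_mod_cast h2
  have hN1 : (0 : ℝ) < N1 := by linarith
  have hnp : (0 : ℝ) < n := by linarith
  have q1 : 1 ≤ (N1 : ℝ) / N0 := by rw [one_le_div hN0]; linarith
  have q2 : 1 ≤ ((N1 : ℝ) / N0) ^ (4/7 : ℝ) := Real.one_le_rpow q1 (by norm_num)
  have q3 : (N0 : ℝ) / N1 ≤ 1 := by rw [div_le_one hN1]; linarith
  have hR0 : 0 ≤ 2 * Λ * (((N1 : ℝ) / N0) ^ (4/7 : ℝ) - 1) + Λ * (1 - (N0 : ℝ) / N1) ^ β := by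
    have := Real.rpow_nonneg (show 0 ≤ 1 - (N0 : ℝ) / N1 by linarith) β
    have : 0 ≤ ((N1 : ℝ) / N0) ^ (4/7 : ℝ) - 1 := by linarith
    positivity
  rw [ContinuousMap.dist_le hR0]
  intro s
  obtain ⟨hg1, hg2⟩ := hg
  have hs0 : 0 ≤ (s : ℝ) := s.2.1
  have hs1 : (s : ℝ) ≤ 1 := s.2.2
  have hu0 : 0 ≤ (s : ℝ) * n / N1 := by positivity
  have hu1 : (s : ℝ) * n / N1 ≤ 1 := by
    rw [div_le_one hN1]
    nlinarith
  set u : unitInterval := ⟨(s : ℝ) * n / N1, hu0, hu1⟩ with hu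
  have e1 := cv_scale (by omega : 1 ≤ n) h2 p s u (by
    show (s : ℝ) * n / N1 * N1 = s * n
    field_simp)
  have hb : ‖cv N1 p u‖ ≤ 2 * Λ := by
    have h3 := hg2 u 0
    rw [dist_eq_norm] at h3
    have h4 := norm_add_le (cv N1 p u - cv N1 p 0) (cv N1 p 0)
    rw [sub_add_cancel] at h4
    have h5 : |(u : ℝ) - ((0 : unitInterval) : ℝ)| ^ β ≤ 1 := by
      refine Real.rpow_le_one (abs_nonneg _) ?_ hβ.le
      rw [show ((0 : unitInterval) : ℝ) = 0 from rfl, sub_zero, abs_of_nonneg hu0]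
      exact hu1
    have h6 : Λ * |(u : ℝ) - ((0 : unitInterval) : ℝ)| ^ β ≤ Λ * 1 :=
      mul_le_mul_of_nonneg_left h5 hΛ
    linarith
  have q4 : 1 ≤ ((N1 : ℝ) / n) ^ (4/7 : ℝ) :=
    Real.one_le_rpow (by rw [one_le_div hnp]; linarith) (by norm_num)
  have q5 : ((N1 : ℝ) / n) ^ (4/7 : ℝ) ≤ ((N1 : ℝ) / N0) ^ (4/7 : ℝ) := by
    refine Real.rpow_le_rpow (by positivity) ?_ (by norm_num)
    exact div_le_div_of_nonneg_left hN1.le hN0 hn0
  have d1 : dist (cv n p s) (cv N1 p u) ≤ 2 * Λ * (((N1 : ℝ) / N0) ^ (4/7 : ℝ) - 1) := by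
    rw [e1, dist_eq_norm]
    have e2 : ((((N1 : ℝ) / n) ^ (4/7 : ℝ) : ℝ) : ℂ) * cv N1 p u - cv N1 p u =
        ((((N1 : ℝ) / n) ^ (4/7 : ℝ) - 1 : ℝ) : ℂ) * cv N1 p u := by
      push_cast
      ring
    rw [e2, norm_mul, Complex.norm_real, Real.norm_eq_abs,
      abs_of_nonneg (by linarith : 0 ≤ ((N1 : ℝ) / n) ^ (4/7 : ℝ) - 1)]
    calc (((N1 : ℝ) / n) ^ (4/7 : ℝ) - 1) * ‖cv N1 p u‖
        ≤ (((N1 : ℝ) / N0) ^ (4/7 : ℝ) - 1) * (2 * Λ) :=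
          mul_le_mul (by linarith) hb (norm_nonneg _) (by linarith)
      _ = _ := by ring
  have d2 : dist (cv N1 p u) (cv N1 p s) ≤ Λ * (1 - (N0 : ℝ) / N1) ^ β := by
    refine (hg2 u s).trans (mul_le_mul_of_nonneg_left ?_ hΛ)
    refine Real.rpow_le_rpow (abs_nonneg _) ?_ hβ.le
    show |(s : ℝ) * n / N1 - s| ≤ 1 - (N0 : ℝ) / N1
    have e3 : (s : ℝ) * n / N1 - s = -(s * (1 - n / N1)) := by ring
    have q6 : (n : ℝ) / N1 ≤ 1 := by rw [div_le_one hN1]; exact hn1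
    have q7 : (N0 : ℝ) / N1 ≤ n / N1 := div_le_div_of_nonneg_right hn0 hN1.le
    rw [e3, abs_neg, abs_of_nonneg (mul_nonneg hs0 (by linarith))]
    nlinarith
  exact (dist_triangle _ _ _).trans (add_le_add d1 d2)

/-- the oscillation between two times, truncated at `1` -/
noncomputable def MM (N0 N1 : ℕ) (p : ℕ → St) : ℝ :=
  min 1 ((Finset.range (N1 - N0 + 1)).sup' ⟨0, Finset.mem_range.2 (Nat.succ_pos _)⟩
    fun i => dist (cv (N0 + i) p) (cv N0 p))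

theorem MM_nonneg (N0 N1 : ℕ) (p : ℕ → St) : 0 ≤ MM N0 N1 p := by
  refine le_min zero_le_one ?_
  refine le_trans (dist_nonneg (x := cv (N0 + 0) p) (y := cv N0 p)) ?_
  exact Finset.le_sup' (fun i => dist (cv (N0 + i) p) (cv N0 p)) (Finset.mem_range.2 (Nat.succ_pos _))

theorem MM_le_one (N0 N1 : ℕ) (p : ℕ → St) : MM N0 N1 p ≤ 1 := min_le_left _ _

theorem le_MM {N0 N1 n : ℕ} (h1 : N0 ≤ n) (h2 : n ≤ N1) (p : ℕ → St) :
    min 1 (dist (cv n p) (cv N0 p)) ≤ MM N0 N1 p := by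
  refine min_le_min le_rfl ?_
  have h3 := Finset.le_sup' (fun i => dist (cv (N0 + i) p) (cv N0 p))
    (Finset.mem_range.2 (show n - N0 < N1 - N0 + 1 by omega))
  simpa [Nat.add_sub_cancel' h1] using h3

theorem MM_lip {N0 N1 : ℕ} (h0 : 1 ≤ N0) (h1 : N0 ≤ N1) (h2 : N1 ≤ 2 * N0) :
    LipP N1 (4 * (N1 : ℝ) ^ (-(4/7) : ℝ)) (MM N0 N1) := by
  intro p p' d hd h
  have hN0 : (0 : ℝ) < N0 := by exact_mod_cast h0
  have hN1 : (0 : ℝ) < N1 := by exact_mod_cast (by omega : 0 < N1)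
  have hsc : ∀ n : ℕ, N0 ≤ n → (n : ℝ) ^ (-(4/7) : ℝ) ≤ 2 * (N1 : ℝ) ^ (-(4/7) : ℝ) := by
    intro n hn
    have hn' : (N0 : ℝ) ≤ n := by exact_mod_cast hn
    have e1 : (n : ℝ) ^ (-(4/7) : ℝ) ≤ (N0 : ℝ) ^ (-(4/7) : ℝ) :=
      Real.rpow_le_rpow_of_nonpos hN0 hn' (by norm_num)
    have e2 : (N1 : ℝ) ≤ 2 * N0 := by exact_mod_cast h2
    have e3 : (2 * (N0 : ℝ)) ^ (-(4/7) : ℝ) ≤ (N1 : ℝ) ^ (-(4/7) : ℝ) :=
      Real.rpow_le_rpow_of_nonpos hN1 e2 (by norm_num)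
    rw [Real.mul_rpow (by norm_num) hN0.le] at e3
    have e4 : (1/2 : ℝ) ≤ (2 : ℝ) ^ (-(4/7) : ℝ) := by
      have : (2 : ℝ) ^ (-1 : ℝ) ≤ (2 : ℝ) ^ (-(4/7) : ℝ) :=
        Real.rpow_le_rpow_of_exponent_le (by norm_num) (by norm_num)
      rwa [Real.rpow_neg_one, ← one_div] at this
    have e5 : 0 ≤ (N0 : ℝ) ^ (-(4/7) : ℝ) := by positivity
    nlinarith
  set T : ℝ := (N1 : ℝ) ^ (-(4/7) : ℝ) with hT
  have hT0 : 0 ≤ T := by positivity
  have key : ∀ (p p' : ℕ → St), (∀ k ≤ N1, dist (place (p k)) (place (p' k)) ≤ d) →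
      MM N0 N1 p ≤ MM N0 N1 p' + 4 * T * d := by
    intro p p' h
    have hd4 : 0 ≤ 4 * T * d := by positivity
    rcases le_total 1 ((Finset.range (N1 - N0 + 1)).sup' ⟨0, Finset.mem_range.2 (Nat.succ_pos _)⟩
      fun i => dist (cv (N0 + i) p') (cv N0 p')) with hc | hc
    · have e1 : MM N0 N1 p' = 1 := min_eq_left hc
      rw [e1]
      have := MM_le_one N0 N1 p
      linarith
    · have e1 : MM N0 N1 p' = _ := min_eq_right hc
      rw [e1]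
      refine (min_le_right _ _).trans ?_
      refine Finset.sup'_le _ _ ?_
      intro i hi
      rw [Finset.mem_range] at hi
      have a1 := cv_dist (n := N0 + i) hd (fun k hk => h k (by omega))
      have a2 := cv_dist (n := N0) hd (fun k hk => h k (by omega))
      have a3 := hsc (N0 + i) (by omega)
      have a4 := hsc N0 le_rfl
      have a5 : dist (cv (N0 + i) p') (cv N0 p') ≤
          (Finset.range (N1 - N0 + 1)).sup' ⟨0, Finset.mem_range.2 (Nat.succ_pos _)⟩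
            fun i => dist (cv (N0 + i) p') (cv N0 p') :=
        Finset.le_sup' (fun i => dist (cv (N0 + i) p') (cv N0 p')) (Finset.mem_range.2 hi)
      have a6 := dist_triangle4 (cv (N0 + i) p) (cv (N0 + i) p') (cv N0 p') (cv N0 p)
      rw [dist_comm (cv N0 p') (cv N0 p)] at a6
      have a7 : ((N0 + i : ℕ) : ℝ) ^ (-(4/7) : ℝ) * d ≤ 2 * T * d :=
        mul_le_mul_of_nonneg_right a3 hd
      have a8 : (N0 : ℝ) ^ (-(4/7) : ℝ) * d ≤ 2 * T * d := mul_le_mul_of_nonneg_right a4 hd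
      linarith
  rw [abs_le]
  have k1 := key p p' h
  have k2 := key p' p fun k hk => by rw [dist_comm]; exact h k hk
  constructor <;> linarith

end Pool.Agent.X136.QE
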