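import Pool.Agent.X136.QC.Walsh

set_option autoImplicit false

/-!
# The inequality of Schramm and Steif for the characters of a subset, with variable noise
-/

namespace Pool.Agent.X136.QE

open Finset Pool.Agent.X136.QC

variable {ι : Type*} [Fintype ι] [DecidableEq ι]

/-- the weight of a level inside `U` -/
noncomputable def WU (U : Finset ι) (f : (ι → Bool) → ℝ) (k : ℕ) : ℝ :=
  ∑ T ∈ powersetCard k U, (∑ ω, f ω * chi T ω) ^ 2

/-- the projection (times `2 ^ n`) -/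
noncomputable def gU (U : Finset ι) (f : (ι → Bool) → ℝ) (k : ℕ) (ω : ι → Bool) : ℝ :=
  ∑ T ∈ powersetCard k U, (∑ ω, f ω * chi T ω) * chi T ω

theorem sum_f_gU (U : Finset ι) (f : (ι → Bool) → ℝ) (k : ℕ) :
    ∑ ω, f ω * gU U f k ω = WU U f k := by
  unfold gU WU
  have : ∀ ω : ι → Bool, f ω * ∑ T ∈ powersetCard k U,
      (∑ ω, f ω * chi T ω) * chi T ω = ∑ T ∈ powersetCard k U,
      (∑ ω, f ω * chi T ω) * (f ω * chi T ω) := by
    intro ω
    rw [mul_sum]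
    exact sum_congr rfl fun T _ => by ring
  rw [sum_congr rfl fun ω _ => this ω, sum_comm]
  refine sum_congr rfl fun T _ => ?_
  rw [← mul_sum, sq]

theorem sum_gU_sq (U : Finset ι) (f : (ι → Bool) → ℝ) (k : ℕ) :
    ∑ ω, gU U f k ω ^ 2 = (2 : ℝ) ^ Fintype.card ι * WU U f k := by
  unfold gU WU
  exact sum_comb_sq _ _

theorem coef_mixU (U : Finset ι) (f : (ι → Bool) → ℝ) (k : ℕ) (J : Finset ι) (ω : ι → Bool)
    {T : Finset ι} (hT : T ∈ powersetCard k U) (hTJ : Disjoint T J) :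
    ∑ η, gU U f k (mix J ω η) * chi T η =
      (2 : ℝ) ^ Fintype.card ι * ∑ ω, f ω * chi T ω := by
  unfold gU
  have h1 : ∀ η : ι → Bool, (∑ S ∈ powersetCard k U,
      (∑ ω, f ω * chi S ω) * chi S (mix J ω η)) * chi T η =
      ∑ S ∈ powersetCard k U,
        ((∑ ω, f ω * chi S ω) * chi (S ∩ J) ω) * (chi (S \ J) η * chi T η) := by
    intro η
    rw [sum_mul]
    refine sum_congr rfl fun S _ => ?_
    rw [chi_mix]; ring
  rw [sum_congr rfl fun η _ => h1 η, sum_comm]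
  have h2 : ∀ S ∈ powersetCard k U,
      ∑ η, ((∑ ω, f ω * chi S ω) * chi (S ∩ J) ω) * (chi (S \ J) η * chi T η) =
      if S = T then (2 : ℝ) ^ Fintype.card ι * ∑ ω, f ω * chi S ω else 0 := by
    intro S hS
    rw [← mul_sum, chi_orth]
    by_cases h : S = T
    · subst h
      have e1 : S \ J = S := sdiff_eq_self_of_disjoint hTJ
      have e2 : S ∩ J = ∅ := disjoint_iff_inter_eq_empty.1 hTJ
      rw [if_pos e1, if_pos rfl, e2, chi_empty]
      ring
    · rw [if_neg h, if_neg, mul_zero]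
      intro h3
      apply h
      have h4 : T ⊆ S := by rw [← h3]; exact sdiff_subset
      refine (eq_of_subset_of_card_le h4 ?_).symm
      rw [(mem_powersetCard.1 hS).2, (mem_powersetCard.1 hT).2]
  rw [sum_congr rfl h2, sum_ite_eq' _ T, if_pos hT]

theorem PPU_sq_le {J : (ι → Bool) → Finset ι} (hJ : Stop J) (U : Finset ι)
    (f : (ι → Bool) → ℝ) {k : ℕ} (hk : 1 ≤ k) :
    ∑ ω, PP J (gU U f k) ω ^ 2 ≤ ((2 : ℝ) ^ Fintype.card ι) ^ 2 *
      ∑ T ∈ powersetCard k U, (∑ ω, f ω * chi T ω) ^ 2 *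
        ((univ.filter fun ω => ¬ Disjoint T (J ω)).card : ℝ) := by
  set N : ℝ := (2 : ℝ) ^ Fintype.card ι with hN
  set L := powersetCard k U with hL
  have h1 : ∀ ω : ι → Bool, PP J (gU U f k) ω ^ 2 +
      ∑ T ∈ L.filter (fun T => Disjoint T (J ω)), (N * ∑ ω, f ω * chi T ω) ^ 2 ≤
      N * ∑ η, gU U f k (mix (J ω) ω η) ^ 2 := by
    intro ω
    have h2 := bessel (insert ∅ (L.filter fun T => Disjoint T (J ω)))
      (fun η => gU U f k (mix (J ω) ω η))
    rw [sum_insert] at h2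
    · refine le_trans (le_of_eq ?_) h2
      congr 1
      · unfold PP
        congr 1
        exact sum_congr rfl fun η _ => by rw [chi_empty, mul_one]
      · refine sum_congr rfl fun T hT => ?_
        rw [mem_filter] at hT
        rw [coef_mixU U f k (J ω) ω hT.1 hT.2]
    · rw [mem_filter, hL, mem_powersetCard]
      rintro ⟨⟨-, h3⟩, -⟩
      rw [card_empty] at h3
      omega
  have h2 := sum_le_sum fun (ω : ι → Bool) (_ : ω ∈ univ) => h1 ω
  rw [sum_add_distrib, ← mul_sum, sum_mix_sq hJ, sum_gU_sq] at h2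
  have h3 : ∑ ω : ι → Bool, ∑ T ∈ L.filter (fun T => Disjoint T (J ω)),
      (N * ∑ ω, f ω * chi T ω) ^ 2 = N ^ 2 * ∑ T ∈ L, (∑ ω, f ω * chi T ω) ^ 2 *
        (N - ((univ.filter fun ω => ¬ Disjoint T (J ω)).card : ℝ)) := by
    have h4 : ∀ ω : ι → Bool, ∑ T ∈ L.filter (fun T => Disjoint T (J ω)),
      (N * ∑ ω, f ω * chi T ω) ^ 2 = ∑ T ∈ L, if Disjoint T (J ω) then
        (N * ∑ ω, f ω * chi T ω) ^ 2 else 0 := fun ω => sum_filter _ _
    rw [sum_congr rfl fun ω _ => h4 ω, sum_comm, mul_sum]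
    refine sum_congr rfl fun T _ => ?_
    rw [← sum_filter, sum_const, nsmul_eq_mul]
    have h5 := card_filter_add_card_filter_not (s := (univ : Finset (ι → Bool)))
      (fun ω => Disjoint T (J ω))
    rw [card_univ, Fintype.card_fun, Fintype.card_bool] at h5
    have h6 : ((univ.filter fun ω => Disjoint T (J ω)).card : ℝ) +
        ((univ.filter fun ω => ¬ Disjoint T (J ω)).card : ℝ) = N := by
      rw [hN]; exact_mod_cast h5
    rw [← h6]
    ring
  rw [h3] at h2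
  have h4 : ∑ T ∈ L, (∑ ω, f ω * chi T ω) ^ 2 *
        (N - ((univ.filter fun ω => ¬ Disjoint T (J ω)).card : ℝ)) =
      N * WU U f k - ∑ T ∈ L, (∑ ω, f ω * chi T ω) ^ 2 *
        ((univ.filter fun ω => ¬ Disjoint T (J ω)).card : ℝ) := by
    unfold WU
    rw [mul_sum, ← sum_sub_distrib]
    exact sum_congr rfl fun T _ => by ring
  rw [h4] at h2
  linarith

theorem levelU_le {f : (ι → Bool) → ℝ} (hf1 : ∀ ω, |f ω| ≤ 1) {J : (ι → Bool) → Finset ι}
    (hJ : Stop J) (hf : ∀ ω ω' : ι → Bool, (∀ i ∈ J ω, ω i = ω' i) → f ω' = f ω)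
    {U : Finset ι} {δ : ℝ} (hδ0 : 0 ≤ δ)
    (hδ : ∀ i ∈ U, ((univ.filter fun ω => i ∈ J ω).card : ℝ) ≤ δ * (2 : ℝ) ^ Fintype.card ι)
    {k : ℕ} (hk : 1 ≤ k) :
    WU U f k ≤ k * δ * ((2 : ℝ) ^ Fintype.card ι) ^ 2 := by
  set N : ℝ := (2 : ℝ) ^ Fintype.card ι with hN
  have hN0 : 0 < N := by positivity
  have hW0 : 0 ≤ WU U f k := sum_nonneg fun _ _ => sq_nonneg _
  have hff : ∑ ω, f ω ^ 2 ≤ N := by
    calc ∑ ω, f ω ^ 2 ≤ ∑ ω : ι → Bool, (1 : ℝ) :=
          sum_le_sum fun ω _ => by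
            have := hf1 ω
            rw [abs_le] at this
            nlinarith
      _ = N := by
        rw [sum_const, card_univ, Fintype.card_fun, Fintype.card_bool, nsmul_eq_mul, mul_one, hN]
        push_cast
        rfl
  have h1 : WU U f k ^ 2 ≤ N * ∑ T ∈ powersetCard k U,
      (∑ ω, f ω * chi T ω) ^ 2 * ((univ.filter fun ω => ¬ Disjoint T (J ω)).card : ℝ) := by
    have h2 := sum_f_PP hJ hf (gU U f k)
    rw [sum_f_gU] at h2
    have h3 := sum_mul_sq_le_sq_mul_sq univ f (PP J (gU U f k))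
    rw [h2] at h3
    have h4 := PPU_sq_le hJ U f hk
    have h5 : (N * WU U f k) ^ 2 ≤ N * (N ^ 2 * ∑ T ∈ powersetCard k U,
      (∑ ω, f ω * chi T ω) ^ 2 * ((univ.filter fun ω => ¬ Disjoint T (J ω)).card : ℝ)) :=
      h3.trans (mul_le_mul hff h4 (sum_nonneg fun _ _ => sq_nonneg _) hN0.le)
    have h6 : N ^ 2 * WU U f k ^ 2 ≤ N ^ 2 * (N * ∑ T ∈ powersetCard k U,
      (∑ ω, f ω * chi T ω) ^ 2 * ((univ.filter fun ω => ¬ Disjoint T (J ω)).card : ℝ)) := by
      calc N ^ 2 * WU U f k ^ 2 = (N * WU U f k) ^ 2 := by ring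
        _ ≤ _ := h5
        _ = _ := by ring
    exact le_of_mul_le_mul_left h6 (by positivity)
  have h4 : ∀ T ∈ powersetCard k U,
      ((univ.filter fun ω => ¬ Disjoint T (J ω)).card : ℝ) ≤ k * (δ * N) := by
    intro T hT
    have h6 : (univ.filter fun ω => ¬ Disjoint T (J ω)) ⊆
        T.biUnion fun i => univ.filter fun ω => i ∈ J ω := by
      intro ω hω
      rw [mem_filter, not_disjoint_iff] at hω
      obtain ⟨-, i, hi, hi2⟩ := hω
      exact mem_biUnion.2 ⟨i, hi, mem_filter.2 ⟨mem_univ _, hi2⟩⟩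
    have h5 : ((univ.filter fun ω => ¬ Disjoint T (J ω)).card : ℝ) ≤
        ∑ i ∈ T, ((univ.filter fun ω => i ∈ J ω).card : ℝ) := by
      exact_mod_cast (card_le_card h6).trans card_biUnion_le
    refine h5.trans ((sum_le_sum fun i hi => hδ i ((mem_powersetCard.1 hT).1 hi)).trans ?_)
    rw [sum_const, (mem_powersetCard.1 hT).2, nsmul_eq_mul]
  have h5 : WU U f k ^ 2 ≤ N * (WU U f k * (k * (δ * N))) := by
    refine h1.trans ?_
    refine mul_le_mul_of_nonneg_left ?_ hN0.le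
    unfold WU
    rw [sum_mul]
    exact sum_le_sum fun T hT => mul_le_mul_of_nonneg_left (h4 T hT) (sq_nonneg _)
  rcases hW0.eq_or_lt with h0 | h0
  · rw [← h0]
    positivity
  · have h6 : WU U f k * WU U f k ≤ WU U f k * (k * δ * N ^ 2) := by
      calc WU U f k * WU U f k = WU U f k ^ 2 := by ring
        _ ≤ _ := h5
        _ = _ := by ring
    exact le_of_mul_le_mul_left h6 h0

/-- expansion with variable noise -/
theorem stabU_eq (f : (ι → Bool) → ℝ) (ρ : ι → ℝ) :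
    ∑ x : ι → Bool, ∑ y : ι → Bool, f x * f y * ∏ i, (1 + ρ i * (sg (x i) * sg (y i))) =
      ∑ S ∈ (univ : Finset ι).powerset, (∏ i ∈ S, ρ i) * (∑ ω, f ω * chi S ω) ^ 2 := by
  have h1 : ∀ x y : ι → Bool, ∏ i, (1 + ρ i * (sg (x i) * sg (y i))) =
      ∑ S ∈ (univ : Finset ι).powerset, (∏ i ∈ S, ρ i) * (chi S x * chi S y) := by
    intro x y
    rw [prod_one_add]
    refine sum_congr rfl fun S _ => ?_
    rw [prod_mul_distrib, prod_mul_distrib]
    rfl
  have h2 : ∀ x y : ι → Bool, f x * f y * ∏ i, (1 + ρ i * (sg (x i) * sg (y i))) =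
      ∑ S ∈ (univ : Finset ι).powerset, (∏ i ∈ S, ρ i) * ((f x * chi S x) * (f y * chi S y)) := by
    intro x y
    rw [h1, mul_sum]
    exact sum_congr rfl fun S _ => by ring
  calc _ = ∑ x : ι → Bool, ∑ y : ι → Bool, ∑ S ∈ (univ : Finset ι).powerset,
        (∏ i ∈ S, ρ i) * ((f x * chi S x) * (f y * chi S y)) :=
        sum_congr rfl fun x _ => sum_congr rfl fun y _ => h2 x y
    _ = ∑ x : ι → Bool, ∑ S ∈ (univ : Finset ι).powerset, ∑ y : ι → Bool,
        (∏ i ∈ S, ρ i) * ((f x * chi S x) * (f y * chi S y)) :=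
        sum_congr rfl fun x _ => sum_comm
    _ = ∑ S ∈ (univ : Finset ι).powerset, ∑ x : ι → Bool, ∑ y : ι → Bool,
        (∏ i ∈ S, ρ i) * ((f x * chi S x) * (f y * chi S y)) := sum_comm
    _ = _ := by
        refine sum_congr rfl fun S _ => ?_
        rw [sq, sum_mul_sum, mul_sum]
        refine sum_congr rfl fun x _ => ?_
        rw [mul_sum]

/-- **Noise sensitivity from small revealment on the noisy bits.** -/
theorem stabU_le {f : (ι → Bool) → ℝ} (hf1 : ∀ ω, |f ω| ≤ 1) {J : (ι → Bool) → Finset ι}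
    (hJ : Stop J) (hf : ∀ ω ω' : ι → Bool, (∀ i ∈ J ω, ω i = ω' i) → f ω' = f ω)
    {U : Finset ι} {δ : ℝ} (hδ0 : 0 ≤ δ)
    (hδ : ∀ i ∈ U, ((univ.filter fun ω => i ∈ J ω).card : ℝ) ≤ δ * (2 : ℝ) ^ Fintype.card ι)
    {ρ : ℝ} (h0 : 0 ≤ ρ) (h1 : ρ < 1) {r : ι → ℝ} (hr0 : ∀ i, 0 ≤ r i) (hr1 : ∀ i, r i ≤ ρ)
    (hrU : ∀ i, i ∉ U → r i = 0) :
    ∑ x : ι → Bool, ∑ y : ι → Bool, f x * f y * ∏ i, ((1 + r i * (sg (x i) * sg (y i))) / 4) -
      ((∑ ω, f ω) / (2 : ℝ) ^ Fintype.card ι) ^ 2 ≤ δ * (ρ / (1 - ρ) ^ 2) := by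
  set N : ℝ := (2 : ℝ) ^ Fintype.card ι with hN
  have hN0 : 0 < N := by positivity
  have e1 : ∑ x : ι → Bool, ∑ y : ι → Bool, f x * f y *
      ∏ i, ((1 + r i * (sg (x i) * sg (y i))) / 4) =
      (∑ S ∈ (univ : Finset ι).powerset, (∏ i ∈ S, r i) * (∑ ω, f ω * chi S ω) ^ 2) / N ^ 2 := by
    rw [← stabU_eq, sum_div]
    refine sum_congr rfl fun x _ => ?_
    rw [sum_div]
    refine sum_congr rfl fun y _ => ?_
    rw [prod_div_distrib, prod_const, card_univ]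
    have : (4 : ℝ) ^ Fintype.card ι = N ^ 2 := by
      rw [hN, ← pow_mul, mul_comm, pow_mul]; norm_num
    rw [this]
    ring
  have e2 : ∑ S ∈ (univ : Finset ι).powerset, (∏ i ∈ S, r i) * (∑ ω, f ω * chi S ω) ^ 2 ≤
      ∑ k ∈ range (U.card + 1), ρ ^ k * WU U f k := by
    have e3 : ∑ S ∈ (univ : Finset ι).powerset, (∏ i ∈ S, r i) * (∑ ω, f ω * chi S ω) ^ 2 =
        ∑ S ∈ U.powerset, (∏ i ∈ S, r i) * (∑ ω, f ω * chi S ω) ^ 2 := by
      symm
      refine sum_subset (powerset_mono.2 (subset_univ _)) ?_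
      intro S _ hS
      rw [mem_powerset, not_subset] at hS
      obtain ⟨i, hi, hi2⟩ := hS
      rw [prod_eq_zero hi (hrU i hi2), zero_mul]
    rw [e3, sum_powerset]
    refine sum_le_sum fun k _ => ?_
    unfold WU
    rw [mul_sum]
    refine sum_le_sum fun S hS => ?_
    refine mul_le_mul_of_nonneg_right ?_ (sq_nonneg _)
    calc ∏ i ∈ S, r i ≤ ∏ _i ∈ S, ρ := prod_le_prod (fun i _ => hr0 i) fun i _ => hr1 i
      _ = ρ ^ k := by rw [prod_const, (mem_powersetCard.1 hS).2]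
  have e4 : WU U f 0 = (∑ ω, f ω) ^ 2 := by
    unfold WU
    rw [powersetCard_zero, sum_singleton]
    congr 1
    exact sum_congr rfl fun ω _ => by rw [chi_empty, mul_one]
  rw [sum_range_succ', pow_zero, one_mul, e4] at e2
  have h2 : ∀ k ∈ range U.card, ρ ^ (k + 1) * WU U f (k + 1) ≤
      (((k + 1 : ℕ) : ℝ) * ρ ^ (k + 1)) * (δ * N ^ 2) := by
    intro k _
    have h3 := levelU_le hf1 hJ hf hδ0 hδ (Nat.succ_le_succ (Nat.zero_le k))
    calc ρ ^ (k + 1) * WU U f (k + 1) ≤ ρ ^ (k + 1) * (((k + 1 : ℕ) : ℝ) * δ * N ^ 2) :=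
          mul_le_mul_of_nonneg_left h3 (by positivity)
      _ = _ := by ring
  have hρ : ‖ρ‖ < 1 := by rw [Real.norm_eq_abs, abs_of_nonneg h0]; exact h1
  have h3 : ∑ k ∈ range U.card, (((k + 1 : ℕ) : ℝ) * ρ ^ (k + 1)) ≤
      ρ / (1 - ρ) ^ 2 := by
    rw [← tsum_coe_mul_geometric_of_norm_lt_one hρ]
    have hs : Summable fun n : ℕ => (n : ℝ) * ρ ^ n :=
      (hasSum_coe_mul_geometric_of_norm_lt_one hρ).summable
    have h4 := sum_range_succ' (fun n : ℕ => (n : ℝ) * ρ ^ n) U.card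
    have h5 : ∑ k ∈ range U.card, (((k + 1 : ℕ) : ℝ) * ρ ^ (k + 1)) =
        ∑ k ∈ range (U.card + 1), (k : ℝ) * ρ ^ k := by
      rw [h4]; simp
    rw [h5]
    exact hs.sum_le_tsum _ fun n _ => by positivity
  have h6 := sum_le_sum h2
  rw [← sum_mul] at h6
  have h7 : (∑ k ∈ range U.card, (((k + 1 : ℕ) : ℝ) * ρ ^ (k + 1))) * (δ * N ^ 2) ≤
      ρ / (1 - ρ) ^ 2 * (δ * N ^ 2) := mul_le_mul_of_nonneg_right h3 (by positivity)
  rw [e1, div_pow, ← sub_div, div_le_iff₀ (by positivity)]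
  calc _ ≤ ρ / (1 - ρ) ^ 2 * (δ * N ^ 2) := by linarith
    _ = _ := by ring

end Pool.Agent.X136.QE
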