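import Pool.Agent.X136.QC.Law
import Pool.Agent.X136.QE.Walsh2

set_option autoImplicit false

/-!
# Product laws with independent random parameters which need not be identically distributed
-/

namespace Pool.Agent.X136.QE

open Finset MeasureTheory ProbabilityTheory Pool.Agent.X136.QC

/-- the law of an environment with independent values -/
noncomputable def evn {E : Type*} (ν : E → Measure unitInterval) : Measure (E → unitInterval) :=
  Measure.infinitePi ν

instance {E : Type*} (ν : E → Measure unitInterval) [∀ e, IsProbabilityMeasure (ν e)] :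
    IsProbabilityMeasure (evn ν) := by unfold evn; infer_instance

variable {E : Type*} [DecidableEq E]

/-- expectations of functions of finitely many bits -/
theorem pl_int (q : E → unitInterval) (W : Finset E) (g : (W → Bool) → ℝ) :
    ∫ ω, g (fun i : W => ω i) ∂pl q = ∑ x : W → Bool, g x * ∏ i : W, bq (q i) (x i) := by
  classical
  have h1 : (pl q).map W.restrict = Measure.pi fun i : W => bernoulliMeasure true false (q i) :=
    Measure.infinitePi_map_restrict _
  have h2 : ∫ ω, g (fun i : W => ω i) ∂pl q =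
      ∫ x, g x ∂(Measure.pi fun i : W => bernoulliMeasure true false (q i)) := by
    rw [← h1, integral_map (Finset.measurable_restrict W).aemeasurable
      (measurable_of_finite g).aestronglyMeasurable]
    rfl
  rw [h2, integral_fintype (Integrable.of_finite)]
  refine sum_congr rfl fun x _ => ?_
  rw [smul_eq_mul, mul_comm]
  congr 1
  unfold Measure.real
  rw [Measure.pi_singleton, ENNReal.toReal_prod]
  exact prod_congr rfl fun i _ => b_real _ _

variable {ν : E → Measure unitInterval} [∀ e, IsProbabilityMeasure (ν e)]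

/-- averages over the environment -/
theorem evn_prod (W : Finset E) (g : W → unitInterval → ℝ) (hg : ∀ i, Measurable (g i)) :
    ∫ q : E → unitInterval, ∏ i : W, g i (q i) ∂evn ν = ∏ i : W, ∫ p, g i p ∂ν i := by
  have h1 : (evn ν).map W.restrict = Measure.pi fun i : W => ν i :=
    Measure.infinitePi_map_restrict _
  rw [← integral_fintype_prod_eq_prod (μ := fun i : W => ν i), ← h1,
    integral_map (Finset.measurable_restrict W).aemeasurable]
  · rfl
  · exact (Finset.measurable_prod _ fun i _ => (hg i).comp (measurable_pi_apply i)).aestronglyMeasurable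

theorem integrable_term (W : Finset E) (x : W → Bool) :
    Integrable (fun q : E → unitInterval => ∏ i : W, bq (q i) (x i)) (evn ν) := by
  refine Integrable.of_bound (Finset.measurable_prod univ fun i _ =>
    (measurable_bq (x i)).comp (measurable_pi_apply (i : E))).aestronglyMeasurable 1 ?_
  refine Filter.Eventually.of_forall fun q => ?_
  rw [Real.norm_eq_abs, abs_of_nonneg (prod_nonneg fun i _ => bq_nonneg _ _)]
  exact prod_le_one (fun i _ => bq_nonneg _ _) fun i _ => bq_le_one _ _

theorem integrable_term2 (W : Finset E) (x y : W → Bool) :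
    Integrable (fun q : E → unitInterval => ∏ i : W, (bq (q i) (x i) * bq (q i) (y i)))
      (evn ν) := by
  refine Integrable.of_bound (Finset.measurable_prod univ fun i _ =>
    ((measurable_bq (x i)).comp (measurable_pi_apply (i : E))).mul
    ((measurable_bq (y i)).comp (measurable_pi_apply (i : E)))).aestronglyMeasurable 1 ?_
  refine Filter.Eventually.of_forall fun q => ?_
  rw [Real.norm_eq_abs, abs_of_nonneg (prod_nonneg fun i _ =>
    mul_nonneg (bq_nonneg _ _) (bq_nonneg _ _))]
  exact prod_le_one (fun i _ => mul_nonneg (bq_nonneg _ _) (bq_nonneg _ _)) fun i _ =>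
    mul_le_one₀ (bq_le_one _ _) (bq_nonneg _ _) (bq_le_one _ _)

theorem measurable_pl_int (W : Finset E) (g : (W → Bool) → ℝ) :
    Measurable fun q : E → unitInterval => ∫ ω, g (fun i : W => ω i) ∂pl q := by
  simp only [pl_int]
  refine Finset.measurable_sum _ fun x _ => Measurable.const_mul ?_ _
  exact Finset.measurable_prod _ fun i _ => (measurable_bq (x i)).comp (measurable_pi_apply _)

/-- the mean over the fair bits -/
noncomputable def mn (W : Finset E) (g : (W → Bool) → ℝ) : ℝ :=
  (∑ x : W → Bool, g x) / 2 ^ Fintype.card W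

theorem fair_int (W : Finset E) (g : (W → Bool) → ℝ) :
    ∫ ω, g (fun i : W => ω i) ∂fair E = mn W g := by
  unfold fair mn
  rw [pl_int, sum_div]
  refine sum_congr rfl fun x _ => ?_
  have : ∀ i : W, bq ⟨1/2, by norm_num, by norm_num⟩ (x i) = 1 / 2 := by
    intro i
    cases x i <;> simp [bq] <;> norm_num
  rw [prod_congr rfl fun i _ => this i, prod_const, card_univ]
  rw [one_div, inv_pow, div_eq_mul_inv]

theorem evn_int (hm : ∀ e, ∫ p, (p : ℝ) ∂ν e = 1 / 2) (W : Finset E) (g : (W → Bool) → ℝ) :
    ∫ q, (∫ ω, g (fun i : W => ω i) ∂pl q) ∂evn ν = mn W g := by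
  simp only [pl_int]
  rw [integral_finsetSum _ fun x _ => (integrable_term W x).const_mul _]
  unfold mn
  rw [sum_div]
  refine sum_congr rfl fun x _ => ?_
  rw [integral_const_mul, evn_prod W (fun i p => bq p (x i)) fun i => measurable_bq _,
    prod_congr rfl fun (i : W) _ => int_bq (hm (i : E)) (x i), prod_const, card_univ]
  rw [one_div, inv_pow, div_eq_mul_inv]

theorem evn_int_sq (hm : ∀ e, ∫ p, (p : ℝ) ∂ν e = 1 / 2) (W : Finset E) (g : (W → Bool) → ℝ) :
    ∫ q, (∫ ω, g (fun i : W => ω i) ∂pl q) ^ 2 ∂evn ν =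
      ∑ x : W → Bool, ∑ y : W → Bool, g x * g y *
        ∏ i : W, ((1 + rho (ν i) * (sg (x i) * sg (y i))) / 4) := by
  have h1 : ∀ q : E → unitInterval, (∫ ω, g (fun i : W => ω i) ∂pl q) ^ 2 =
      ∑ x : W → Bool, ∑ y : W → Bool, g x * g y *
        ∏ i : W, (bq (q i) (x i) * bq (q i) (y i)) := by
    intro q
    rw [pl_int, sq, sum_mul_sum]
    refine sum_congr rfl fun x _ => sum_congr rfl fun y _ => ?_
    rw [prod_mul_distrib]
    ring
  simp only [h1]
  have hint := fun x y : W → Bool => (integrable_term2 (ν := ν) W x y).const_mul (g x * g y)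
  rw [integral_finsetSum _ fun x _ => integrable_finsetSum _ fun y _ => hint x y]
  refine sum_congr rfl fun x _ => ?_
  rw [integral_finsetSum _ fun y _ => hint x y]
  refine sum_congr rfl fun y _ => ?_
  rw [integral_const_mul, evn_prod W (fun i p => bq p (x i) * bq p (y i)) fun i =>
    (measurable_bq _).mul (measurable_bq _),
    prod_congr rfl fun (i : W) _ => int_bq_bq (hm (i : E)) (x i) (y i)]

theorem integrable_pl_int (W : Finset E) (g : (W → Bool) → ℝ) :
    Integrable (fun q : E → unitInterval => ∫ ω, g (fun i : W => ω i) ∂pl q) (evn ν) := by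
  simp only [pl_int]
  exact integrable_finsetSum _ fun x _ => (integrable_term W x).const_mul _

theorem integrable_pl_int_sq (W : Finset E) (g : (W → Bool) → ℝ) :
    Integrable (fun q : E → unitInterval => (∫ ω, g (fun i : W => ω i) ∂pl q) ^ 2) (evn ν) := by
  have h1 : ∀ q : E → unitInterval, (∫ ω, g (fun i : W => ω i) ∂pl q) ^ 2 =
      ∑ x : W → Bool, ∑ y : W → Bool, g x * g y *
        ∏ i : W, (bq (q i) (x i) * bq (q i) (y i)) := by
    intro q
    rw [pl_int, sq, sum_mul_sum]
    refine sum_congr rfl fun x _ => sum_congr rfl fun y _ => ?_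
    rw [prod_mul_distrib]
    ring
  simp only [h1]
  exact integrable_finsetSum _ fun x _ => integrable_finsetSum _ fun y _ =>
    (integrable_term2 W x y).const_mul _

/-- the variance over the environment -/
theorem evn_var (hm : ∀ e, ∫ p, (p : ℝ) ∂ν e = 1 / 2) (W : Finset E) (g : (W → Bool) → ℝ) :
    ∫ q, ((∫ ω, g (fun i : W => ω i) ∂pl q) - mn W g) ^ 2 ∂evn ν =
      ∑ x : W → Bool, ∑ y : W → Bool, g x * g y *
        ∏ i : W, ((1 + rho (ν i) * (sg (x i) * sg (y i))) / 4) - mn W g ^ 2 := by
  rw [← evn_int_sq hm]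
  set c := mn W g with hc
  have h1 : ∀ q : E → unitInterval, ((∫ ω, g (fun i : W => ω i) ∂pl q) - c) ^ 2 =
      ((∫ ω, g (fun i : W => ω i) ∂pl q) ^ 2 -
        (2 * c) * (∫ ω, g (fun i : W => ω i) ∂pl q)) + c ^ 2 := by
    intro q; ring
  simp only [h1]
  rw [integral_add (f := fun q : E → unitInterval => (∫ ω, g (fun i : W => ω i) ∂pl q) ^ 2 -
        (2 * c) * (∫ ω, g (fun i : W => ω i) ∂pl q)) (g := fun _ => c ^ 2)
      ((integrable_pl_int_sq W g).sub ((integrable_pl_int W g).const_mul _)) (integrable_const _),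
    integral_sub (integrable_pl_int_sq W g) ((integrable_pl_int W g).const_mul _),
    integral_const_mul, evn_int hm W g]
  simp
  ring

/-- **Quenched expectations of functions with small revealment on the random edges.** -/
theorem evn_var_le (hm : ∀ e, ∫ p, (p : ℝ) ∂ν e = 1 / 2) {ρ : ℝ} (hρ0 : 0 ≤ ρ)
    (hρ1 : ρ < 1)
    (hρ : ∀ e, rho (ν e) ≤ ρ) (W : Finset E) {U : Set E} (hU : ∀ e ∉ U, rho (ν e) = 0)
    {g : (W → Bool) → ℝ} (hg : ∀ x, |g x| ≤ 1)
    {J : (W → Bool) → Finset W} (hJ : Stop J)
    (hf : ∀ x x' : W → Bool, (∀ i ∈ J x, x i = x' i) → g x' = g x) {δ : ℝ} (hδ0 : 0 ≤ δ)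
    (hδ : ∀ i : W, (i : E) ∈ U →
      ((univ.filter fun x => i ∈ J x).card : ℝ) ≤ δ * (2 : ℝ) ^ Fintype.card W) :
    ∫ q, ((∫ ω, g (fun i : W => ω i) ∂pl q) - mn W g) ^ 2 ∂evn ν ≤ δ * (ρ / (1 - ρ) ^ 2) := by
  classical
  rw [evn_var hm]
  exact stabU_le hg hJ hf (U := univ.filter fun i : W => (i : E) ∈ U) hδ0
    (fun i hi => hδ i (mem_filter.1 hi).2) hρ0 hρ1
    (r := fun i => rho (ν i)) (fun i => rho_nonneg _) (fun i => hρ i)
    (fun i hi => hU i fun h => hi (mem_filter.2 ⟨mem_univ _, h⟩))

end Pool.Agent.X136.QE
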