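import Pool.Agent.X136.QE.Det
import Pool.Agent.X136.QE.Law2
import Pool.Agent.H984R4.HN.Disp
import Pool.Agent.H12R2.Sep.WinHalf
import Pool.Agent.H12R2.Sep.Win2

set_option autoImplicit false

/-!
# Probability estimates for the examined edges of the half-plane exploration path
-/

namespace Pool.Agent.X136.QE

open H974 Finset H342P H984P H984H MeasureTheory Filter Topology
open Pool.Agent.X136.QC (pl fair)

theorem perc_eq_fair : perc = fair Edg := by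
  unfold perc fair pl
  congr 1
  funext e
  refine Measure.ext_of_singleton fun b => ?_
  have h2 : ENNReal.ofReal (1 / 2) = 1 / 2 := by
    rw [ENNReal.ofReal_div_of_pos (by norm_num)]
    simp
  rw [Perc_coin_eq]
  cases b
  · rw [HT.b_false]
    simp only
    rw [show (1 : ℝ) - 1 / 2 = 1 / 2 by norm_num, h2]
  · rw [HT.b_true]
    simp only
    rw [h2]

/-- open arm of `z` to distance `D` -/
def OA (z : Vtx) (D : ℕ) (ω : Conf) : Prop :=
  ∃ x y : Vtx, inR (z.1 - 1) (z.1 + 1) (z.2 - 1) (z.2 + 1) x ∧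
    (y.1 ≤ z.1 - D ∨ z.1 + D ≤ y.1 ∨ y.2 ≤ z.2 - D ∨ z.2 + D ≤ y.2) ∧ Reach (FO ω) x y

/-- closed dual arm of `z` to distance `D` -/
def CA (z : Vtx) (D : ℕ) (ω : Conf) : Prop :=
  ∃ x y : Vtx, inR (z.1 - 1) (z.1 + 1) (z.2 - 1) (z.2 + 1) x ∧
    (y.1 ≤ z.1 - D ∨ z.1 + D ≤ y.1 ∨ y.2 ≤ z.2 - D ∨ z.2 + D ≤ y.2) ∧ DReach (FC ω) x y

theorem OA_crs {z : Vtx} {D : ℕ} {ω : Conf} {ρ : ℤ} (hρ : |z.1| + |z.2| + D + 2 ≤ ρ)
    (h : OA z D ω) : H12S.Crs z.1 z.2 1 D (↑(cut ω ρ) : Set Edg) := by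
  obtain ⟨x, y, hx, hy, hr⟩ := h
  set B : Vtx → Prop := fun v => (z.1 - D < v.1 ∧ v.1 < z.1 + D) ∧ (z.2 - D < v.2 ∧ v.2 < z.2 + D)
    with hB
  have a1 := neg_abs_le z.1
  have a2 := le_abs_self z.1
  have a3 := neg_abs_le z.2
  have a4 := le_abs_self z.2
  have hX : ∀ e ∈ FO ω, B (src e) ∨ B (tgt e) → e ∈ (↑(bx ρ).edges : Set Edg) := by
    rintro ⟨a, b, t⟩ ⟨hf, -⟩ he
    have hf1 : 0 ≤ b := hf.1
    simp only [hB] at he
    show ((a, b, t) : Edg) ∈ RE (-ρ) ρ 0 ρ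
    cases t
    · rw [mem_RE_false]
      rw [src_mk, tgt_false] at he
      simp only at he
      omega
    · rw [mem_RE_true]
      rw [src_mk, tgt_true] at he
      simp only at he
      omega
  have hG : FO ω ∩ (↑(bx ρ).edges : Set Edg) ⊆ (↑(cut ω ρ) : Set Edg) := by
    rintro e ⟨he1, he2⟩
    exact Finset.mem_coe.2 (Perc_mem_cut.2 ⟨he2, he1.2⟩)
  have hyB : ¬ B y := by
    simp only [hB]
    omega
  obtain ⟨w, hw, hr2⟩ := arms_reach B hX hG hr hyB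
  refine ⟨x, w, ?_, ?_, hr2⟩
  · simpa using hx
  · simp only [hB] at hw
    omega

theorem CA_crs {z : Vtx} {D : ℕ} {ω : Conf} {ρ : ℤ} (hρ : |z.1| + |z.2| + D + 2 ≤ ρ)
    (h : CA z D ω) : H12S.DCrs z.1 z.2 1 D (↑((bx ρ).edges \ cut ω ρ) : Set Edg) := by
  obtain ⟨x, y, hx, hy, hr⟩ := h
  set B : Vtx → Prop := fun v => (z.1 - D < v.1 ∧ v.1 < z.1 + D) ∧ (z.2 - D < v.2 ∧ v.2 < z.2 + D)
    with hB
  have a1 := neg_abs_le z.1
  have a2 := le_abs_self z.1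
  have a3 := neg_abs_le z.2
  have a4 := le_abs_self z.2
  have hX : ∀ e ∈ FC ω, B (dsrc e) ∨ B (dtgt e) → e ∈ (↑(bx ρ).edges : Set Edg) := by
    rintro ⟨a, b, t⟩ ⟨hf, -⟩ he
    have hf1 : 0 ≤ b := hf.1
    simp only [hB] at he
    show ((a, b, t) : Edg) ∈ RE (-ρ) ρ 0 ρ
    cases t
    · rw [mem_RE_false]
      rw [dsrc_false, dtgt_mk] at he
      simp only at he
      omega
    · rw [mem_RE_true]
      rw [dsrc_true, dtgt_mk] at he
      simp only at he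
      omega
  have hG : FC ω ∩ (↑(bx ρ).edges : Set Edg) ⊆ (↑((bx ρ).edges \ cut ω ρ) : Set Edg) := by
    rintro e ⟨he1, he2⟩
    rw [Finset.mem_coe, Finset.mem_sdiff, Perc_mem_cut]
    refine ⟨he2, fun h => ?_⟩
    rw [he1.2] at h
    exact absurd h.2 (by decide)
  have hyB : ¬ B y := by
    simp only [hB]
    omega
  obtain ⟨w, hw, hr2⟩ := arms_dreach B hX hG hr hyB
  refine ⟨x, w, ?_, ?_, hr2⟩
  · simpa using hx
  · simp only [hB] at hw
    omega

/-- the probability of an arm -/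
theorem arm_prob : ∃ C c : ℝ, 0 < C ∧ 0 < c ∧ ∀ (z : Vtx) (D : ℕ), 1 ≤ D →
    perc.real {ω | OA z D ω} ≤ C * (1 / (D : ℝ)) ^ c ∧
    perc.real {ω | CA z D ω} ≤ C * (1 / (D : ℝ)) ^ c := by
  obtain ⟨κ, hκ, hW⟩ := H12S.win_half
  obtain ⟨C, c, hC, hc, harm⟩ := H12S.win_arm_of
    (fun h _ h1 h2 => fun c1 c2 S => H12S.win_blk h h1 h2 c1 c2 S) κ hκ
  refine ⟨C, c, hC, hc, fun z D hD => ?_⟩
  set ρ : ℤ := |z.1| + |z.2| + D + 2 with hρ
  have h2 := harm (1/2) D (hW D) 1 D le_rfl hD le_rfl z.1 z.2 (bx ρ).edges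
  constructor
  · have h1 : perc.real {ω | OA z D ω} ≤
        perc.real {ω | H12S.Crs z.1 z.2 1 D (↑(cut ω ρ) : Set Edg)} :=
      measureReal_mono fun ω hω => OA_crs le_rfl hω
    refine h1.trans ?_
    rw [perc_cut ρ (fun F => H12S.Crs z.1 z.2 1 D (↑F : Set Edg))]
    refine h2.1.trans ?_
    simp
  · have h1 : perc.real {ω | CA z D ω} ≤
        perc.real {ω | H12S.DCrs z.1 z.2 1 D (↑((bx ρ).edges \ cut ω ρ) : Set Edg)} :=
      measureReal_mono fun ω hω => CA_crs le_rfl hω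
    refine h1.trans ?_
    rw [perc_cut ρ (fun F => H12S.DCrs z.1 z.2 1 D (↑((bx ρ).edges \ F) : Set Edg))]
    refine h2.2.trans ?_
    simp

/-- an examined free edge has an arm to the distance of the origin -/
theorem ex_arm {n : ℕ} {ω : Conf} {e : Edg} (h : e ∈ Ex n ω) {D : ℕ} (hD : 2 ≤ D)
    (hDe : (D : ℤ) ≤ |e.1| ∨ (D : ℤ) ≤ e.2.1) : OA (e.1, e.2.1) D ω ∨ CA (e.1, e.2.1) D ω := by
  obtain ⟨hf, k, hk, he⟩ := h
  have h1 := xe_pos (path ω k)
  rw [he] at h1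
  have h2 := arms_face (path ω k)
  rcases le_or_gt 0 (path ω k).1.1 with h0 | h0
  · left
    obtain ⟨j, hj, hr⟩ := path_arm ω k
    refine ⟨(path ω k).1, (j, 0), ?_, ?_, hr⟩
    · unfold inR
      simp only
      omega
    · simp only
      rcases hDe with h | h
      · rw [le_abs] at h
        omega
      · omega
  · right
    have hup : 0 ≤ (face (path ω k)).2 := by
      clear h1 h2 h0
      generalize path ω k = σ at he
      obtain ⟨⟨x, y⟩, q⟩ := σ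
      subst he
      obtain ⟨f1, f2⟩ := hf
      cases q <;> simp only [xe, Bool.false_eq_true, and_false, not_false_eq_true, and_true]
        at f1 f2 <;> simp only [face_ne, face_nw, face_sw, face_se] <;> omega
    obtain ⟨j, hj, hr⟩ := path_darm ω k hup
    refine ⟨face (path ω k), (j, 0), ?_, ?_, hr⟩
    · unfold inR
      simp only
      omega
    · simp only
      rcases hDe with h | h
      · rw [le_abs] at h
        omega
      · omega

/-- the revealment -/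
theorem ex_prob : ∃ C c : ℝ, 0 < C ∧ 0 < c ∧ ∀ (n : ℕ) (e : Edg) (D : ℕ), 2 ≤ D →
    ((D : ℤ) ≤ |e.1| ∨ (D : ℤ) ≤ e.2.1) → perc.real {ω | e ∈ Ex n ω} ≤ C * (1 / (D : ℝ)) ^ c := by
  obtain ⟨C, c, hC, hc, h⟩ := arm_prob
  refine ⟨2 * C, c, by linarith, hc, fun n e D hD hDe => ?_⟩
  obtain ⟨h1, h2⟩ := h (e.1, e.2.1) D (by omega)
  have h3 : {ω | e ∈ Ex n ω} ⊆ {ω | OA (e.1, e.2.1) D ω} ∪ {ω | CA (e.1, e.2.1) D ω} :=
    fun ω hω => ex_arm hω hD hDe
  refine (measureReal_mono h3).trans ((measureReal_union_le _ _).trans ?_)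
  linarith

theorem tendsto_arm {C c : ℝ} (hc : 0 < c) :
    Tendsto (fun D : ℕ => C * (1 / ((D + 1 : ℕ) : ℝ)) ^ c) atTop (𝓝 0) := by
  have h1 : Tendsto (fun D : ℕ => (1 / ((D : ℝ) + 1))) atTop (𝓝 0) :=
    tendsto_one_div_add_atTop_nhds_zero_nat
  have h2 := h1.rpow_const (p := c) (Or.inr hc.le)
  rw [Real.zero_rpow hc.ne'] at h2
  have h3 := h2.const_mul C
  rw [mul_zero] at h3
  refine h3.congr fun D => ?_
  push_cast
  rfl

/-- almost surely there is no infinite free cluster -/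
theorem noinf : ∀ᵐ ω ∂perc, (∀ v : Vtx, ∃ R : ℤ, ∀ w, Reach (FO ω) v w → sd v w < R) ∧
    ∀ v : Vtx, ∃ R : ℤ, ∀ w, DReach (FC ω) v w → sd v w < R := by
  obtain ⟨C, c, hC, hc, h⟩ := arm_prob
  have key : ∀ (Q : Vtx → ℕ → Conf → Prop) (hQ : ∀ v D, 1 ≤ D →
      perc.real {ω | Q v D ω} ≤ C * (1 / (D : ℝ)) ^ c) (v : Vtx),
      ∀ᵐ ω ∂perc, ∃ D : ℕ, ¬ Q v (D + 1) ω := by
    intro Q hQ v
    rw [ae_iff]
    have h1 : ∀ D : ℕ, perc.real {ω | ¬ ∃ D : ℕ, ¬ Q v (D + 1) ω} ≤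
        C * (1 / ((D + 1 : ℕ) : ℝ)) ^ c := by
      intro D
      refine le_trans (measureReal_mono ?_) (hQ v (D + 1) (by omega))
      intro ω hω
      have : ¬ ∃ D : ℕ, ¬ Q v (D + 1) ω := hω
      push Not at this
      exact this D
    have h2 := ge_of_tendsto' (tendsto_arm (C := C) hc) h1
    have h3 : perc.real {ω | ¬ ∃ D : ℕ, ¬ Q v (D + 1) ω} = 0 := le_antisymm h2 measureReal_nonneg
    rwa [measureReal_eq_zero_iff] at h3
  have k1 := fun v => key OA (fun v D hD => (h v D hD).1) v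
  have k2 := fun v => key CA (fun v D hD => (h v D hD).2) v
  rw [← ae_all_iff] at k1 k2
  filter_upwards [k1, k2] with ω h1 h2
  constructor
  · intro v
    obtain ⟨D, hD⟩ := h1 v
    refine ⟨D + 1, fun w hw => ?_⟩
    by_contra hcon
    push Not at hcon
    refine hD ⟨v, w, ?_, ?_, hw⟩
    · unfold inR; omega
    · unfold sd at hcon
      rw [le_max_iff, le_abs, le_abs] at hcon
      push_cast
      omega
  · intro v
    obtain ⟨D, hD⟩ := h2 v
    refine ⟨D + 1, fun w hw => ?_⟩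
    by_contra hcon
    push Not at hcon
    refine hD ⟨v, w, ?_, ?_, hw⟩
    · unfold inR; omega
    · unfold sd at hcon
      rw [le_max_iff, le_abs, le_abs] at hcon
      push_cast
      omega

/-- the path has reached distance `R` after `8 R ^ 2` steps -/
theorem reach_far (ω : Conf) (R : ℕ) (hR : 1 ≤ R) :
    ∃ k ≤ 8 * R ^ 2, (R : ℤ) ≤ sd (path ω k).1 (0, 0) := by
  by_contra hcon
  push Not at hcon
  set T : Finset St := ((Finset.Icc (-((R : ℤ) - 1)) ((R : ℤ) - 1)) ×ˢ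
    (Finset.Icc (0 : ℤ) ((R : ℤ) - 1))) ×ˢ (Finset.univ : Finset Q4) with hT
  have h1 : ∀ k ∈ Finset.range (8 * R ^ 2 + 1), path ω k ∈ T := by
    intro k hk
    rw [Finset.mem_range] at hk
    have h2 := hcon k (by omega)
    have h3 := path_nonneg ω k
    unfold sd at h2
    rw [max_lt_iff, abs_lt, abs_lt] at h2
    rw [hT, Finset.mem_product, Finset.mem_product, Finset.mem_Icc, Finset.mem_Icc]
    simp only [Finset.mem_univ, and_true]
    simp only [sub_zero] at h2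
    omega
  have h2 := Finset.card_le_card_of_injOn (path ω) h1 (fun i _ j _ hij => by
    by_contra hne
    exact path_inj ω hne hij)
  rw [Finset.card_range, hT, Finset.card_product, Finset.card_product, Int.card_Icc, Int.card_Icc,
    Finset.card_univ] at h2
  have h3 : Fintype.card Q4 = 4 := by decide
  rw [h3] at h2
  have h4 : ((R : ℤ) - 1 + 1 - -((R : ℤ) - 1)).toNat = 2 * R - 1 := by omega
  have h5 : ((R : ℤ) - 1 + 1 - 0).toNat = R := by omega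
  rw [h4, h5] at h2
  have h6 : (2 * R - 1) * R ≤ 2 * R ^ 2 := by
    calc (2 * R - 1) * R ≤ (2 * R) * R := Nat.mul_le_mul_right _ (Nat.sub_le _ _)
      _ = 2 * R ^ 2 := by ring
  have h7 : (2 * R - 1) * R * 4 ≤ 8 * R ^ 2 := by
    calc (2 * R - 1) * R * 4 ≤ 2 * R ^ 2 * 4 := Nat.mul_le_mul_right _ h6
      _ = 8 * R ^ 2 := by ring
  omega

/-- late visits of the neighbourhood of the origin -/
theorem late_prob : ∃ a A : ℝ, 0 < a ∧ 0 < A ∧ ∀ r R : ℕ, 1 ≤ r → 1 ≤ R →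
    perc.real {ω | ∃ l, 8 * R ^ 2 ≤ l ∧ sd (path ω l).1 (0, 0) ≤ r} ≤ A * ((r : ℝ) / R) ^ a := by
  obtain ⟨a, A, ha, hA, h⟩ := Disp_ret
  refine ⟨a, A, ha, by linarith, fun r R hr hR => ?_⟩
  have h1 := h r R (by exact_mod_cast hr) (by exact_mod_cast hR)
  have h2 : {ω : Conf | ∃ l, 8 * R ^ 2 ≤ l ∧ sd (path ω l).1 (0, 0) ≤ r} ⊆
      {ω | ∃ k l : ℕ, k ≤ l ∧ (R : ℤ) ≤ sd (path ω k).1 (0, 0) ∧ sd (path ω l).1 (0, 0) ≤ (r : ℤ)} := by
    rintro ω ⟨l, hl, hr⟩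
    obtain ⟨k, hk, hk2⟩ := reach_far ω R hR
    exact ⟨k, l, hk.trans hl, hk2, hr⟩
  refine (measureReal_mono h2).trans (h1.trans (le_of_eq ?_))
  simp only [Int.cast_natCast]

end Pool.Agent.X136.QE
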