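import Pool.Agent.H984R4.HN.Ret
import Pool.Agent.H984R3.Per.Pot
import Pool.Agent.H984R4.HN.Arms
import Pool.Agent.H984R4.HN.Couple

set_option autoImplicit false

/-!
# The half-plane exploration path: examined edges, arms, and changes near the origin
-/

namespace Pool.Agent.X136.QE

open H974 Finset H342P H984P H984H

/-- the edge examined by `step` -/
def xe (σ : St) : Edg := match σ.2 with
  | .ne => (σ.1.1, σ.1.2, false)
  | .nw => (σ.1.1 - 1, σ.1.2, true)
  | .sw => (σ.1.1, σ.1.2 - 1, false)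
  | .se => (σ.1.1, σ.1.2, true)

theorem step_xe {G G' : Set Edg} {σ : St} (h : xe σ ∈ G ↔ xe σ ∈ G') :
    step G σ = step G' σ := by
  classical
  obtain ⟨⟨x, y⟩, q⟩ := σ
  cases q <;> simp only [step] <;> exact if_congr h rfl rfl

/-- the edges which follow the coins -/
def Fr (e : Edg) : Prop := 0 ≤ e.2.1 ∧ ¬ (e.2.1 = 0 ∧ e.2.2 = true)

theorem opn_fr {ω : Conf} {e : Edg} (h : Fr e) : e ∈ opn ω ↔ ω e = true := by
  constructor
  · rintro (⟨h1, h2, -⟩ | ⟨-, -, h3⟩)
    · exact absurd ⟨h1, h2⟩ h.2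
    · exact h3
  · intro h'
    exact Or.inr ⟨h.1, h.2, h'⟩

theorem opn_congr {ω ω' : Conf} {e : Edg} (h : Fr e → ω e = ω' e) : e ∈ opn ω ↔ e ∈ opn ω' := by
  by_cases hf : Fr e
  · rw [opn_fr hf, opn_fr hf, h hf]
  · constructor
    · rintro (h1 | ⟨h1, h2, -⟩)
      · exact Or.inl h1
      · exact absurd ⟨h1, h2⟩ hf
    · rintro (h1 | ⟨h1, h2, -⟩)
      · exact Or.inl h1
      · exact absurd ⟨h1, h2⟩ hf

/-- the free edges examined during the first `n` steps -/
def Ex (n : ℕ) (ω : Conf) : Set Edg := {e | Fr e ∧ ∃ k < n, xe (path ω k) = e}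

theorem path_same {n : ℕ} {ω ω' : Conf} (h : ∀ e ∈ Ex n ω, ω e = ω' e) :
    ∀ k ≤ n, path ω' k = path ω k := by
  intro k
  induction k with
  | zero => intro _; rfl
  | succ k ih =>
    intro hk
    rw [path_succ, path_succ, ih (by omega)]
    apply step_xe
    refine opn_congr fun hf => ?_
    exact (h _ ⟨hf, k, by omega, rfl⟩).symm

theorem Ex_same {n : ℕ} {ω ω' : Conf} (h : ∀ e ∈ Ex n ω, ω e = ω' e) : Ex n ω' = Ex n ω := by
  have h1 := path_same h
  ext e
  constructor
  · rintro ⟨hf, k, hk, he⟩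
    exact ⟨hf, k, hk, by rw [← h1 k hk.le]; exact he⟩
  · rintro ⟨hf, k, hk, he⟩
    exact ⟨hf, k, hk, by rw [h1 k hk.le]; exact he⟩

/-- the position of the examined edge -/
theorem xe_pos (σ : St) : σ.1.1 - 1 ≤ (xe σ).1 ∧ (xe σ).1 ≤ σ.1.1 ∧ σ.1.2 - 1 ≤ (xe σ).2.1 ∧
    (xe σ).2.1 ≤ σ.1.2 := by
  obtain ⟨⟨x, y⟩, q⟩ := σ
  cases q <;> simp [xe]

theorem path_zero_sd (ω : Conf) (k : ℕ) : sd (path ω k).1 (0, 0) ≤ k := by
  have h1 := path_sd ω (Nat.zero_le k)
  have h2 : sd (path ω k).1 (0, 0) = sd (path ω 0).1 (path ω k).1 := by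
    have : (path ω 0).1 = (0, 0) := rfl
    rw [this]
    simp only [sd]
    rw [abs_sub_comm, abs_sub_comm (path ω k).1.2]
  rw [h2]
  simpa using h1

/-- free open edges -/
def FO (ω : Conf) : Set Edg := {e | Fr e ∧ ω e = true}

/-- free closed edges -/
def FC (ω : Conf) : Set Edg := {e | Fr e ∧ ω e = false}

theorem FC_sub (ω : Conf) : FC ω ⊆ (opn ω)ᶜ := by
  rintro e ⟨h1, h2⟩ h3
  rw [opn_fr h1, h2] at h3
  exact absurd h3 (by decide)

theorem mem_FC {ω : Conf} {e : Edg} (h : Fr e) (h' : e ∉ opn ω) : e ∈ FC ω := by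
  refine ⟨h, ?_⟩
  rw [opn_fr h] at h'
  simpa using h'

theorem axis_reach (ω : Conf) : ∀ k : ℕ, Reach (opn ω) (0, 0) (-(k : ℤ), 0)
  | 0 => by simpa using Reach.refl (opn ω) (0, 0)
  | k + 1 => by
    refine (axis_reach ω k).trans (Adj.reach ⟨(-(k : ℤ) - 1, 0, true), ?_, Or.inr ⟨?_, ?_⟩⟩)
    · left
      exact ⟨rfl, rfl, by simp only; omega⟩
    · rw [src_mk]
      push_cast
      congr 1
      ring
    · rw [tgt_true]
      congr 1
      ring

theorem reach_cases {ω : Conf} {u w : Vtx} (h : Reach (opn ω) u w) :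
    Reach (FO ω) u w ∨ ∃ j : ℤ, j ≤ 0 ∧ Reach (FO ω) u (j, 0) := by
  induction h with
  | refl => exact Or.inl (Reach.refl _ _)
  | @tail b c _ hbc ih =>
    rcases ih with ih | ih
    · obtain ⟨e, he, hc⟩ := hbc
      by_cases hf : Fr e
      · left
        exact Reach.trans ih (Adj.reach ⟨e, ⟨hf, (opn_fr hf).1 he⟩, hc⟩)
      · right
        rcases he with ⟨h1, h2, h3⟩ | ⟨h1, h2, -⟩
        · obtain ⟨x, y, t⟩ := e
          simp only at h1 h2 h3
          subst h1 h2
          rcases hc with ⟨h4, -⟩ | ⟨-, h4⟩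
          · rw [src_mk] at h4
            exact ⟨x, by omega, by rw [h4]; exact ih⟩
          · rw [tgt_true] at h4
            exact ⟨x + 1, by omega, by rw [h4]; exact ih⟩
        · exact absurd ⟨h1, h2⟩ hf
    · exact Or.inr ih

theorem path_arm (ω : Conf) (k : ℕ) : ∃ j : ℤ, j ≤ 0 ∧ Reach (FO ω) (path ω k).1 (j, 0) := by
  rcases reach_cases (path_clu ω k).symm with h | h
  · exact ⟨0, le_rfl, h⟩
  · exact h

theorem dreach_step (G : Set Edg) (σ : St) : DReach Gᶜ (face σ) (face (step G σ)) := by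
  classical
  obtain ⟨⟨x, y⟩, q⟩ := σ
  cases q
  · by_cases h : ((x, y, false) : Edg) ∈ G
    · have h1 : step G ((x, y), .ne) = ((x, y + 1), .se) := by simp [step, h]
      rw [h1, face_ne, face_se, add_sub_cancel_right]
      exact DReach.refl _ _
    · have h1 : step G ((x, y), .ne) = ((x, y), .nw) := by simp [step, h]
      rw [h1, face_ne, face_nw]
      exact DAdj.reach ⟨_, h, Or.inr ⟨rfl, rfl⟩⟩
  · by_cases h : ((x - 1, y, true) : Edg) ∈ G
    · have h1 : step G ((x, y), .nw) = ((x - 1, y), .ne) := by simp [step, h]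
      rw [h1, face_ne, face_nw]
      exact DReach.refl _ _
    · have h1 : step G ((x, y), .nw) = ((x, y), .sw) := by simp [step, h]
      rw [h1, face_nw, face_sw]
      exact DAdj.reach ⟨_, h, Or.inr ⟨rfl, rfl⟩⟩
  · by_cases h : ((x, y - 1, false) : Edg) ∈ G
    · have h1 : step G ((x, y), .sw) = ((x, y - 1), .nw) := by simp [step, h]
      rw [h1, face_sw, face_nw]
      exact DReach.refl _ _
    · have h1 : step G ((x, y), .sw) = ((x, y), .se) := by simp [step, h]
      rw [h1, face_sw, face_se]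
      exact DAdj.reach ⟨_, h, Or.inl ⟨rfl, rfl⟩⟩
  · by_cases h : ((x, y, true) : Edg) ∈ G
    · have h1 : step G ((x, y), .se) = ((x + 1, y), .sw) := by simp [step, h]
      rw [h1, face_se, face_sw, add_sub_cancel_right]
      exact DReach.refl _ _
    · have h1 : step G ((x, y), .se) = ((x, y), .ne) := by simp [step, h]
      rw [h1, face_se, face_ne]
      exact DAdj.reach ⟨_, h, Or.inl ⟨rfl, rfl⟩⟩

theorem path_dclu (ω : Conf) (k : ℕ) : DReach (opn ω)ᶜ (0, 0) (face (path ω k)) := by
  induction k with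
  | zero => exact DReach.refl _ _
  | succ k ih =>
    rw [path_succ]
    exact ih.trans (dreach_step _ _)

theorem fr_faces {e : Edg} (h : Fr e) : 0 ≤ (dsrc e).2 ∧ 0 ≤ (dtgt e).2 := by
  obtain ⟨x, y, t⟩ := e
  obtain ⟨h1, h2⟩ := h
  simp only at h1 h2
  cases t
  · rw [dsrc_false, dtgt_mk]; exact ⟨h1, h1⟩
  · rw [dsrc_true, dtgt_mk]
    simp only [and_true] at h2
    simp only
    omega

theorem dreach_cases {ω : Conf} {f : Vtx} (hf : 0 ≤ f.2) (h : DReach (opn ω)ᶜ f (0, 0)) :
    ∃ j : ℤ, 0 ≤ j ∧ DReach (FC ω) f (j, 0) := by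
  have key : ∀ f g : Vtx, DReach (opn ω)ᶜ f g → g = (0, 0) → 0 ≤ f.2 →
      ∃ j : ℤ, 0 ≤ j ∧ DReach (FC ω) f (j, 0) := by
    intro f g h hg
    induction h using Relation.ReflTransGen.head_induction_on with
    | refl =>
      intro _
      rw [hg]
      exact ⟨0, le_rfl, DReach.refl _ _⟩
    | @head x x' hs _ ih =>
      intro hx
      obtain ⟨e, he, hc⟩ := hs
      by_cases hfr : Fr e
      · have h1 := fr_faces hfr
        have h2 : 0 ≤ x'.2 := by
          rcases hc with ⟨-, h⟩ | ⟨h, -⟩
          · rw [← h]; exact h1.2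
          · rw [← h]; exact h1.1
        obtain ⟨j, hj, hr⟩ := ih h2
        exact ⟨j, hj, DReach.trans (DAdj.reach ⟨e, mem_FC hfr he, hc⟩) hr⟩
      · obtain ⟨a, b, t⟩ := e
        have h3 : ¬ (0 ≤ b ∧ ¬ (b = 0 ∧ t = true)) := hfr
        have h4 : ¬ ((b = 0 ∧ t = true ∧ a < 0) ∨ (0 ≤ b ∧ ¬ (b = 0 ∧ t = true) ∧
          ω (a, b, t) = true)) := he
        cases t
        · exfalso
          simp only [Bool.false_eq_true, and_false, not_false_eq_true, and_true, not_le] at h3
          rw [dsrc_false, dtgt_mk] at hc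
          rcases hc with ⟨h, -⟩ | ⟨-, h⟩ <;>
          · rw [← h] at hx
            simp only at hx
            omega
        · rw [dsrc_true, dtgt_mk] at hc
          simp only [and_true] at h3
          have h5 : b = 0 ∨ b < 0 := by omega
          have h6 : ¬ (b = 0 ∧ a < 0) := fun h => h4 (Or.inl ⟨h.1, rfl, h.2⟩)
          rcases hc with ⟨h, -⟩ | ⟨-, h⟩
          · rw [← h] at hx
            simp only at hx
            omega
          · rw [← h] at hx
            simp only at hx
            have hb : b = 0 := by omega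
            refine ⟨a, by omega, ?_⟩
            rw [← h, hb]
            exact DReach.refl _ _
  exact key f _ h rfl hf

theorem path_darm (ω : Conf) (k : ℕ) (h : 0 ≤ (face (path ω k)).2) :
    ∃ j : ℤ, 0 ≤ j ∧ DReach (FC ω) (face (path ω k)) (j, 0) :=
  dreach_cases h (path_dclu ω k).symm

/-! ### changes near the origin -/

section Pot

variable {ω : Conf} {hf : Vtx → ZMod 2}

theorem low_const (hE : ∀ e, e ∉ opn ω → hf (dsrc e) = hf (dtgt e)) :
    ∀ x y : ℤ, y ≤ -1 → hf (x, y) = hf (0, 0) := by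
  have nm : ∀ (x y : ℤ) (t : Bool), y ≤ -1 → ((x, y, t) : Edg) ∉ opn ω := by
    intro x y t hy h
    have := Step_opn h
    simp only at this
    omega
  have hz : hf (0, -1) = hf (0, 0) := by
    have h1 : ((0, 0, true) : Edg) ∉ opn ω := by
      rintro (⟨-, -, h⟩ | ⟨-, h, -⟩)
      · simp at h
      · exact h ⟨rfl, rfl⟩
    exact hE _ h1
  have hor : ∀ y : ℤ, y ≤ -1 → ∀ n : ℕ, hf ((n : ℤ), y) = hf (0, y) ∧ hf (-(n : ℤ), y) = hf (0, y) := by
    intro y hy n
    induction n with
    | zero => simp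
    | succ n ih =>
      constructor
      · have h1 := hE _ (nm ((n : ℤ) + 1) y false hy)
        rw [dsrc_false, dtgt_mk, add_sub_cancel_right] at h1
        push_cast
        rw [← h1, ih.1]
      · have h1 := hE _ (nm (-(n : ℤ)) y false hy)
        rw [dsrc_false, dtgt_mk] at h1
        push_cast
        rw [show -((n : ℤ) + 1) = -(n : ℤ) - 1 by ring, h1, ih.2]
  have ver : ∀ n : ℕ, hf (0, -1 - (n : ℤ)) = hf (0, -1) := by
    intro n
    induction n with
    | zero => simp
    | succ n ih =>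
      have h1 := hE _ (nm 0 (-1 - (n : ℤ)) true (by omega))
      rw [dsrc_true, dtgt_mk] at h1
      push_cast
      rw [show -1 - ((n : ℤ) + 1) = -1 - (n : ℤ) - 1 by ring, h1, ih]
  intro x y hy
  have h1 : hf (x, y) = hf (0, y) := by
    rcases le_total 0 x with h | h
    · obtain ⟨n, rfl⟩ := Int.eq_ofNat_of_zero_le h
      exact (hor y hy n).1
    · obtain ⟨n, hn⟩ := Int.eq_ofNat_of_zero_le (show 0 ≤ -x by omega)
      have : x = -(n : ℤ) := by omega
      rw [this]
      exact (hor y hy n).2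
  have h2 : hf (0, y) = hf (0, -1) := by
    obtain ⟨n, hn⟩ := Int.eq_ofNat_of_zero_le (show 0 ≤ -1 - y by omega)
    have : y = -1 - (n : ℤ) := by omega
    rw [this]
    exact ver n
  rw [h1, h2, hz]

theorem nonfree_const (hE : ∀ e, e ∉ opn ω → hf (dsrc e) = hf (dtgt e)) {e : Edg} (h : ¬ Fr e)
    (h' : e ∉ opn ω) : hf (dsrc e) = hf (0, 0) ∧ hf (dtgt e) = hf (0, 0) := by
  have h0 := hE e h'
  have h1 : hf (dsrc e) = hf (0, 0) := by
    obtain ⟨a, b, t⟩ := e
    have h3 : ¬ (0 ≤ b ∧ ¬ (b = 0 ∧ t = true)) := h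
    cases t
    · rw [dsrc_false]
      simp only [Bool.false_eq_true, and_false, not_false_eq_true, and_true, not_le] at h3
      exact low_const hE _ _ (by omega)
    · rw [dsrc_true]
      simp only [and_true] at h3
      exact low_const hE _ _ (by omega)
  exact ⟨h1, by rw [← h0]; exact h1⟩

theorem dreach_const (hE : ∀ e, e ∉ opn ω → hf (dsrc e) = hf (dtgt e)) {f g : Vtx}
    (h : DReach (opn ω)ᶜ f g) : hf f = hf g := by
  induction h with
  | refl => rfl
  | tail _ hs ih =>
    obtain ⟨e, he, h | h⟩ := hs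
    · rw [ih, ← h.1, ← h.2]; exact hE e he
    · rw [ih, ← h.1, ← h.2]; exact (hE e he).symm

theorem dreach_split (hE : ∀ e, e ∉ opn ω → hf (dsrc e) = hf (dtgt e)) {f g : Vtx}
    (h : DReach (opn ω)ᶜ f g) : DReach (FC ω) f g ∨ hf f = hf (0, 0) := by
  induction h with
  | refl => exact Or.inl (DReach.refl _ _)
  | @tail b c hfb hbc ih =>
    rcases ih with ih | ih
    · obtain ⟨e, he, hc⟩ := hbc
      by_cases hfr : Fr e
      · left
        exact DReach.trans ih (DAdj.reach ⟨e, mem_FC hfr he, hc⟩)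
      · right
        rw [dreach_const hE hfb]
        have h1 := nonfree_const hE hfr he
        rcases hc with ⟨h, -⟩ | ⟨-, h⟩
        · rw [← h]; exact h1.1
        · rw [← h]; exact h1.2
    · exact Or.inr ih

end Pot

theorem far_unbounded (ω : Conf) (s : ℕ) (R : ℤ) : ∃ k, R ≤ sd (path ω s).1 (path ω (s + k)).1 := by
  by_contra hcon
  push Not at hcon
  have hinj : Function.Injective fun k => path ω (s + k) := by
    intro i j hij
    by_contra hne
    exact path_inj ω (show s + i ≠ s + j by omega) hij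
  have hfin : (Set.range fun k => path ω (s + k)).Finite := by
    refine Set.Finite.subset (s := ((Set.Icc ((path ω s).1.1 - R) ((path ω s).1.1 + R)) ×ˢ
      (Set.Icc ((path ω s).1.2 - R) ((path ω s).1.2 + R))) ×ˢ (Set.univ : Set Q4)) ?_ ?_
    · exact ((Set.finite_Icc _ _).prod (Set.finite_Icc _ _)).prod Set.finite_univ
    · rintro _ ⟨k, rfl⟩
      have h1 := hcon k
      unfold sd at h1
      rw [max_lt_iff, abs_lt, abs_lt] at h1
      simp only [Set.mem_prod, Set.mem_Icc, Set.mem_univ, and_true]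
      omega
  exact Set.infinite_range_of_injective hinj hfin

theorem nxt_bad {ω : Conf} {σ : St} (h : Ret_bad σ) : Ret_bad (nxt (opn ω) σ) := by
  obtain ⟨⟨x, y⟩, q⟩ := σ
  obtain ⟨h1, h2 | h2⟩ := h
  · simp only at h1 h2
    obtain ⟨rfl, h2⟩ := h2
    subst h1
    have hm : ae ((x, 0), .sw) ∈ opn ω := by
      left
      exact ⟨rfl, rfl, by simp only [ae_sw]; omega⟩
    rw [nxt_open hm, mv_sw]
    exact ⟨rfl, Or.inr ⟨rfl, by simp only; omega⟩⟩
  · simp only at h1 h2
    obtain ⟨rfl, h2⟩ := h2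
    subst h1
    have hm : ae ((x, 0), .se) ∉ opn ω := by
      intro h
      have := Step_opn h
      simp at this
    rw [nxt_closed hm, rt_se]
    exact ⟨rfl, Or.inl ⟨rfl, by simp only; omega⟩⟩

/-- the orbit of the first state in the other direction -/
theorem back_cases (ω : Conf) (k : ℕ) : (nxt (opn ω))^[k] ((0, 0), .ne) = ((0, 0), .ne) ∨
    (nxt (opn ω))^[k] ((0, 0), .ne) = ((0, 0), .se) ∨
    Ret_bad ((nxt (opn ω))^[k] ((0, 0), .ne)) := by
  induction k with
  | zero => exact Or.inl rfl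
  | succ k ih =>
    rw [Function.iterate_succ_apply']
    rcases ih with h | h | h
    · right; left
      rw [h]
      have hm : ae (((0, 0), .ne) : St) ∉ opn ω := by
        rintro (⟨-, -, h⟩ | ⟨-, h, -⟩)
        · simp at h
        · exact h ⟨rfl, rfl⟩
      rw [nxt_closed hm, rt_ne]
    · right; right
      rw [h]
      have hm : ae (((0, 0), .se) : St) ∉ opn ω := by
        intro h
        have := Step_opn h
        simp at this
      rw [nxt_closed hm, rt_se]
      exact ⟨rfl, Or.inl ⟨rfl, le_rfl⟩⟩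
    · right; right
      exact nxt_bad h

theorem path_ne_se (ω : Conf) (k : ℕ) : path ω k ≠ ((0, 0), .se) := by
  intro h
  have h1 : path ω (k + 1) = path ω 0 := by
    rw [path_succ, h]
    have hm : ((0, 0, true) : Edg) ∉ opn ω := by
      rintro (⟨-, -, h⟩ | ⟨-, h, -⟩)
      · simp at h
      · exact h ⟨rfl, rfl⟩
    simp [step, hm, path]
  exact path_inj ω (Nat.succ_ne_zero k) h1

theorem iter_reach (G : Set Edg) (σ : St) (k : ℕ) : Reach G σ.1 ((step G)^[k] σ).1 := by
  induction k with
  | zero => exact Reach.refl _ _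
  | succ k ih =>
    rw [Function.iterate_succ_apply']
    exact ih.trans (Couple_step_reach _ _)

theorem iter_dreach (G : Set Edg) (σ : St) (k : ℕ) :
    DReach Gᶜ (face σ) (face ((step G)^[k] σ)) := by
  induction k with
  | zero => exact DReach.refl _ _
  | succ k ih =>
    rw [Function.iterate_succ_apply']
    exact ih.trans (dreach_step _ _)

/-- **If two configurations agree at the edges examined by the path after time `s`, and the second
one has no infinite free cluster, then the two paths agree from some times on.** -/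
theorem couple2 {ω ω' : Conf} {s : ℕ}
    (hfar : ∀ k, s ≤ k → Fr (xe (path ω k)) → ω (xe (path ω k)) = ω' (xe (path ω k)))
    (hinf : ∀ v : Vtx, ∃ R : ℤ, ∀ w, Reach (FO ω') v w → sd v w < R)
    (hinf' : ∀ v : Vtx, ∃ R : ℤ, ∀ w, DReach (FC ω') v w → sd v w < R) :
    ∃ s', ∀ k, path ω' (s' + k) = path ω (s + k) := by
  have h1 : ∀ k, (step (opn ω'))^[k] (path ω s) = path ω (s + k) := by
    intro k
    induction k with
    | zero => rfl
    | succ k ih =>
      rw [Function.iterate_succ_apply', ih, ← add_assoc, path_succ]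
      apply step_xe
      refine opn_congr fun hf => ?_
      exact (hfar _ (by omega) hf).symm
  have key : ∃ s', path ω' s' = path ω s := by
    set A : Set St := {τ | (∃ k, path ω' k = τ) ∨ ∃ k, (nxt (opn ω'))^[k] ((0, 0), .ne) = τ}
      with hA
    have hinv : ∀ σ, σ ∈ A ↔ nxt (opn ω') σ ∈ A := by
      intro σ
      constructor
      · rintro (⟨k, rfl⟩ | ⟨k, rfl⟩)
        · cases k with
          | zero => exact Or.inr ⟨1, rfl⟩
          | succ k =>
            left
            refine ⟨k, ?_⟩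
            rw [path_succ, nxt_step]
        · right
          exact ⟨k + 1, Function.iterate_succ_apply' _ _ _⟩
      · rintro (⟨k, hk⟩ | ⟨k, hk⟩)
        · left
          refine ⟨k + 1, ?_⟩
          rw [path_succ, hk, step_nxt]
        · cases k with
          | zero =>
            left
            refine ⟨1, ?_⟩
            have : path ω' 0 = nxt (opn ω') σ := hk
            rw [path_succ, this, step_nxt]
          | succ k =>
            right
            rw [Function.iterate_succ_apply'] at hk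
            exact ⟨k, (nxt_bij _).1 hk⟩
    obtain ⟨hv, hf, hpot, hC, hE⟩ := pot_of_inv (opn ω') A hinv
    have hst : (((0, 0), .ne) : St) ∈ A := Or.inl ⟨0, rfl⟩
    have e0 := hpot ((0, 0), .ne)
    rw [b2_of hst] at e0
    have e1 : hv (path ω s).1 = hv (0, 0) := by
      obtain ⟨R, hR⟩ := hinf (path ω s).1
      obtain ⟨k, hk⟩ := far_unbounded ω s R
      have h2 := iter_reach (opn ω') (path ω s) k
      rw [h1 k] at h2
      have h3 : ∃ j : ℤ, j ≤ 0 ∧ Reach (FO ω') (path ω s).1 (j, 0) := by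
        rcases reach_cases h2 with h | h
        · exact absurd (hR _ h) (not_lt.2 hk)
        · exact h
      obtain ⟨j, hj, hr⟩ := h3
      obtain ⟨m, hm⟩ := Int.eq_ofNat_of_zero_le (show 0 ≤ -j by omega)
      have h4 := axis_reach ω' m
      rw [show -(m : ℤ) = j by omega] at h4
      have h5 : Reach (opn ω') (path ω s).1 (0, 0) :=
        (Reach.mono (fun e he => (opn_fr he.1).2 he.2) hr).trans h4.symm
      have hreach : ∀ u w, Reach (opn ω') u w → hv u = hv w := by
        intro u w h
        induction h with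
        | refl => rfl
        | tail _ hs ih =>
          obtain ⟨e, he, h | h⟩ := hs
          · rw [ih, ← h.1, ← h.2]; exact hC e he
          · rw [ih, ← h.1, ← h.2]; exact (hC e he).symm
      exact hreach _ _ h5
    have e2 : hf (face (path ω s)) = hf (0, 0) := by
      obtain ⟨R, hR⟩ := hinf' (face (path ω s))
      obtain ⟨k, hk⟩ := far_unbounded ω s (R + 2)
      have h2 := iter_dreach (opn ω') (path ω s) k
      rw [h1 k] at h2
      rcases dreach_split hE h2 with h | h
      · exfalso
        have h3 := hR _ h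
        have a1 := arms_face (path ω s)
        have a2 := arms_face (path ω (s + k))
        unfold sd at h3 hk
        rw [max_lt_iff, abs_lt, abs_lt] at h3
        rw [le_max_iff, le_abs, le_abs] at hk
        omega
      · exact h
    have e3 := hpot (path ω s)
    rw [e1, e2] at e3
    have e4 : face (((0, 0), .ne) : St) = (0, 0) := rfl
    rw [e4] at e0
    simp only at e0
    have hmem : path ω s ∈ A := by
      by_contra hcon
      rw [b2_not_of hcon, e0] at e3
      exact absurd e3 (by decide)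
    rcases hmem with ⟨k, hk⟩ | ⟨k, hk⟩
    · exact ⟨k, hk⟩
    · rcases back_cases ω' k with h | h | h
      · exact ⟨0, by rw [← hk, h]; rfl⟩
      · exact absurd (hk.symm.trans h) (path_ne_se ω s)
      · rw [hk] at h
        exact absurd h (Ret_not_bad ω s)
  obtain ⟨s', hs'⟩ := key
  refine ⟨s', fun k => ?_⟩
  rw [← h1 k, ← hs']
  clear hs'
  induction k with
  | zero => rfl
  | succ k ih =>
    rw [Function.iterate_succ_apply', ← ih, ← add_assoc, path_succ]

end Pool.Agent.X136.QE
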