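import Pool.Agent.X136.QE.Prob

set_option autoImplicit false

/-!
# Quenched expectations when the environment is fair near the origin
-/

namespace Pool.Agent.X136.QE

open H974 Finset H342P H984P H984H MeasureTheory Filter Topology
open Pool.Agent.X136.QC (pl fair rho Stop fair_event rho_nonneg)

/-- the box -/
noncomputable def BW (n : ℕ) : Finset Edg := RE (-(n : ℤ)) n 0 n

theorem Ex_sub {n : ℕ} {ω : Conf} {e : Edg} (h : e ∈ Ex n ω) : e ∈ BW n := by
  obtain ⟨hf, k, hk, he⟩ := h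
  have h1 := xe_pos (path ω k)
  have h2 := path_zero_sd ω k
  rw [he] at h1
  unfold sd at h2
  rw [max_le_iff, abs_le, abs_le] at h2
  simp only [sub_zero] at h2
  have h3 : 0 ≤ e.2.1 := hf.1
  obtain ⟨x, y, t⟩ := e
  unfold BW
  simp only at h1 h3
  cases t
  · rw [mem_RE_false]; omega
  · rw [mem_RE_true]; omega

/-- extension by closed edges -/
noncomputable def ext (W : Finset Edg) (x : W → Bool) : Conf :=
  fun e => if h : e ∈ W then x ⟨e, h⟩ else false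

theorem ext_res {W : Finset Edg} {ω : Conf} {e : Edg} (h : e ∈ W) :
    ext W (fun i : W => ω i) e = ω e := by
  unfold ext
  rw [dif_pos h]

theorem path_res (n : ℕ) (ω : Conf) : ∀ k ≤ n, path (ext (BW n) (fun i : BW n => ω i)) k = path ω k :=
  path_same fun _ he => (ext_res (Ex_sub he)).symm

theorem Ex_res (n : ℕ) (ω : Conf) : Ex n (ext (BW n) (fun i : BW n => ω i)) = Ex n ω :=
  Ex_same fun _ he => (ext_res (Ex_sub he)).symm

/-- `Φ` depends on the first `n` steps -/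
def Dep (n : ℕ) (Φ : (ℕ → St) → ℝ) : Prop := ∀ p p' : ℕ → St, (∀ k ≤ n, p k = p' k) → Φ p = Φ p'

open Classical in
/-- the examined edges as a stopping set -/
noncomputable def JX (n : ℕ) (x : BW n → Bool) : Finset (BW n) :=
  univ.filter fun i => (i : Edg) ∈ Ex n (ext (BW n) x)

theorem mem_JX {n : ℕ} {x : BW n → Bool} {i : BW n} :
    i ∈ JX n x ↔ (i : Edg) ∈ Ex n (ext (BW n) x) := by
  classical
  unfold JX
  simp only [mem_filter, mem_univ, true_and]

theorem JX_agree {n : ℕ} {x x' : BW n → Bool} (h : ∀ i ∈ JX n x, x i = x' i) :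
    ∀ e ∈ Ex n (ext (BW n) x), ext (BW n) x e = ext (BW n) x' e := by
  intro e he
  have h1 := Ex_sub he
  have h2 := h ⟨e, h1⟩ (mem_JX.2 he)
  unfold ext
  rw [dif_pos h1, dif_pos h1, h2]

theorem stop_JX (n : ℕ) : Stop (JX n) := by
  intro x x' h
  ext i
  rw [mem_JX, mem_JX, Ex_same (JX_agree h)]

theorem dep_JX {n : ℕ} {Φ : (ℕ → St) → ℝ} (hΦ : Dep n Φ) {x x' : BW n → Bool}
    (h : ∀ i ∈ JX n x, x i = x' i) :
    Φ (path (ext (BW n) x')) = Φ (path (ext (BW n) x)) :=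
  hΦ _ _ (path_same (JX_agree h))

theorem dep_res {n : ℕ} {Φ : (ℕ → St) → ℝ} (hΦ : Dep n Φ) (ω : Conf) :
    Φ (path ω) = Φ (path (ext (BW n) (fun i : BW n => ω i))) :=
  (hΦ _ _ (path_res n ω)).symm

open Classical in
theorem card_JX (n : ℕ) (i : BW n) :
    ((univ.filter fun x => i ∈ JX n x).card : ℝ) =
      perc.real {ω | (i : Edg) ∈ Ex n ω} * (2 : ℝ) ^ Fintype.card (BW n) := by
  have h1 : {ω : Conf | (i : Edg) ∈ Ex n ω} =
      {ω : Conf | (fun j : BW n => ω j) ∈ {x : BW n → Bool | i ∈ JX n x}} := by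
    ext ω
    show _ ↔ i ∈ JX n (fun j : BW n => ω j)
    rw [mem_JX, Ex_res]
    rfl
  rw [h1, perc_eq_fair, fair_event, div_mul_cancel₀ _ (by positivity), card_filter]
  push_cast
  rfl

/-- **Quenched expectations when the environment is fair within distance `r` of the origin.** -/
theorem frozen : ∃ C c : ℝ, 0 < C ∧ 0 < c ∧ ∀ (ν : Edg → Measure unitInterval)
    [∀ e, IsProbabilityMeasure (ν e)] (_ : ∀ e, ∫ p, (p : ℝ) ∂ν e = 1 / 2) (ρ : ℝ) (_ : 0 ≤ ρ)
    (_ : ρ < 1) (_ : ∀ e, rho (ν e) ≤ ρ) (r : ℕ) (_ : 2 ≤ r)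
    (_ : ∀ e : Edg, |e.1| < r → e.2.1 < r → rho (ν e) = 0) (n : ℕ) (Φ : (ℕ → St) → ℝ)
    (_ : ∀ p, |Φ p| ≤ 1) (_ : Dep n Φ),
    ∫ q, ((∫ ω, Φ (path ω) ∂pl q) - ∫ ω, Φ (path ω) ∂perc) ^ 2 ∂evn ν ≤
      C * (1 / (r : ℝ)) ^ c * (ρ / (1 - ρ) ^ 2) := by
  classical
  obtain ⟨C, c, hC, hc, h⟩ := ex_prob
  refine ⟨C, c, hC, hc, ?_⟩
  intro ν _ hm ρ hρ0 hρ1 hρ r hr hU n Φ hΦ1 hΦ
  have key := evn_var_le hm hρ0 hρ1 hρ (BW n) (U := {e | (r : ℤ) ≤ |e.1| ∨ (r : ℤ) ≤ e.2.1})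
    (fun e he => by
      simp only [Set.mem_ofPred_eq, not_or, not_le] at he
      exact hU e he.1 he.2)
    (g := fun x => Φ (path (ext (BW n) x))) (fun x => hΦ1 _) (stop_JX n)
    (fun x x' hx => dep_JX hΦ hx) (δ := C * (1 / (r : ℝ)) ^ c) (by positivity)
    (fun i hi => by
      rw [card_JX]
      exact mul_le_mul_of_nonneg_right (h n i r hr hi) (by positivity))
  refine le_trans (le_of_eq ?_) key
  congr 1
  funext q
  have e1 : ∀ ω : Conf, Φ (path ω) = Φ (path (ext (BW n) (fun i : BW n => ω i))) := dep_res hΦ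
  have e2 : ∫ ω, Φ (path ω) ∂perc = mn (BW n) fun x => Φ (path (ext (BW n) x)) := by
    rw [← fair_int, perc_eq_fair]
    congr 1
    funext ω
    exact e1 ω
  have e3 : ∫ ω, Φ (path ω) ∂pl q = ∫ ω, Φ (path (ext (BW n) (fun i : BW n => ω i))) ∂pl q := by
    congr 1
    funext ω
    exact e1 ω
  rw [e2, e3]

end Pool.Agent.X136.QE
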