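import Pool.Agent.H984R4.HN.FinalH

set_option autoImplicit false

/-!
# The exploration path of the half-plane in a random environment: definitions

`Conf` (configurations of the edges of `ℤ²`), `path`, `gam`, `curve`, `perc` (all edges open with
probability `1 / 2`) and `lawH` (the law under `perc` of the rescaled path) are those of
`Pool.Agent.H984R4.HN.HPDefs` and `Pool.Agent.H984R4.HN.FinalH`.
-/

namespace Pool.Agent.X136.QE.Model

open H974 H984H MeasureTheory ProbabilityTheory

/-- Percolation in the environment `q`: the edge `e` is open (`true`) with probability `q e`,
independently of the other edges. -/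
noncomputable def law (q : Edg → unitInterval) : Measure Conf :=
  Measure.infinitePi (fun e => bernoulliMeasure true false (q e))

instance (q : Edg → unitInterval) : IsProbabilityMeasure (law q) := by unfold law; infer_instance

/-- The law of an environment with independent values, the value at the edge `e` of law `ν e`. -/
noncomputable def env (ν : Edg → Measure unitInterval) : Measure (Edg → unitInterval) :=
  Measure.infinitePi ν

/-- `E (2 p - 1)²` for `p` of law `ν`; for a law of mean `1 / 2` this is four times the variance, and
it is smaller than `1` unless `ν` is concentrated on `{0, 1}`. -/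
noncomputable def rho (ν : Measure unitInterval) : ℝ := ∫ p, (2 * (p : ℝ) - 1) ^ 2 ∂ν

/-- The law in the environment `q` of the rescaled path `n ^ (-4/7) γ(n t)`, `0 ≤ t ≤ 1`. -/
noncomputable def lawQ (q : Edg → unitInterval) (n : ℕ) : ProbabilityMeasure C(unitInterval, ℂ) :=
  ⟨(law q).map (curve n), Measure.isProbabilityMeasure_map (curve_meas n).aemeasurable⟩

end Pool.Agent.X136.QE.Model
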