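import Pool.Agent.X136.QE.Mix

set_option autoImplicit false

/-!
# The variance of the quenched expectations
-/

namespace Pool.Agent.X136.QE

open H974 Finset H342P H984P H984H MeasureTheory ProbabilityTheory Filter Topology
open Pool.Agent.X136.QC (pl fair rho Stop fair_event rho_nonneg)

theorem mixc_res (n : ℕ) (B : Set Edg) (ω η : Conf) {Φ : (ℕ → St) → ℝ} (hΦ : Dep n Φ) :
    Φ (path (mixc B (ext (BW n) (fun i : BW n => ω i)) η)) = Φ (path (mixc B ω η)) := by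
  refine hΦ _ _ (path_same fun e he => ?_)
  by_cases h : e ∈ B
  · rw [mixc_mem h, mixc_mem h]
  · rw [mixc_not h, mixc_not h, ext_res (Ex_sub he)]

/-- the difference between the environment and the environment which is fair near the origin -/
theorem env_diff (ν : Edg → Measure unitInterval) [∀ e, IsProbabilityMeasure (ν e)]
    (hm : ∀ e, ∫ p, (p : ℝ) ∂ν e = 1 / 2) {n : ℕ} {Φ : (ℕ → St) → ℝ} (hΦ1 : ∀ p, |Φ p| ≤ 1)
    (hΦ : Dep n Φ) (B : Set Edg) :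
    ∫ q, ((∫ ω, Φ (path ω) ∂pl q) - ∫ ω, Φ (path ω) ∂pl (mixc B q fun _ => half)) ^ 2 ∂evn ν ≤
      2 * ∫ z : Conf × Conf, |Φ (path z.1) - Φ (path (mixc B z.1 z.2))|
        ∂((fair Edg).prod (fair Edg)) := by
  set K : Conf → ℝ := fun ω => ∫ η, |Φ (path ω) - Φ (path (mixc B ω η))| ∂fair Edg with hK
  have hmp := measurable_path hΦ
  have hmix : Measurable fun z : Conf × Conf => mixc B z.1 z.2 := measurable_mixc _
  have hm1 : Measurable fun z : Conf × Conf => |Φ (path z.1) - Φ (path (mixc B z.1 z.2))| :=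
    ((hmp.comp measurable_fst).sub (hmp.comp hmix)).abs
  have hb : ∀ z : Conf × Conf, |Φ (path z.1) - Φ (path (mixc B z.1 z.2))| ≤ 2 := by
    intro z
    have g1 := hΦ1 (path z.1)
    have g2 := hΦ1 (path (mixc B z.1 z.2))
    rw [abs_le] at g1 g2 ⊢
    constructor <;> linarith
  have hint : ∀ (P Q : Measure Conf) [IsProbabilityMeasure P] [IsProbabilityMeasure Q],
      Integrable (fun z : Conf × Conf => |Φ (path z.1) - Φ (path (mixc B z.1 z.2))|) (P.prod Q) := by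
    intro P Q _ _
    refine Integrable.of_bound hm1.aestronglyMeasurable 2 (Eventually.of_forall fun z => ?_)
    rw [Real.norm_eq_abs, abs_abs]
    exact hb z
  have hKres : ∀ ω : Conf, K ω = (fun x : BW n → Bool => K (ext (BW n) x)) (fun i : BW n => ω i) := by
    intro ω
    simp only [hK]
    congr 1
    funext η
    rw [mixc_res n B ω η hΦ, ← dep_res hΦ ω]
  have h1 : ∀ q : Edg → unitInterval,
      ((∫ ω, Φ (path ω) ∂pl q) - ∫ ω, Φ (path ω) ∂pl (mixc B q fun _ => half)) ^ 2 ≤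
        2 * ∫ ω, K ω ∂pl q := by
    intro q
    have e1 : ∫ ω, Φ (path ω) ∂pl (mixc B q fun _ => half) =
        ∫ z : Conf × Conf, Φ (path (mixc B z.1 z.2)) ∂((pl q).prod (fair Edg)) := by
      rw [fair_eq, ← map_mixc B q fun _ => half, integral_map hmix.aemeasurable
        hmp.aestronglyMeasurable]
    have e2 : ∫ ω, Φ (path ω) ∂pl q =
        ∫ z : Conf × Conf, Φ (path z.1) ∂((pl q).prod (fair Edg)) := by
      rw [integral_fun_fst (fun ω => Φ (path ω))]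
      simp
    have j1 : Integrable (fun z : Conf × Conf => Φ (path z.1)) ((pl q).prod (fair Edg)) :=
      Integrable.of_bound (hmp.comp measurable_fst).aestronglyMeasurable 1
        (Eventually.of_forall fun z => hΦ1 _)
    have j2 : Integrable (fun z : Conf × Conf => Φ (path (mixc B z.1 z.2)))
        ((pl q).prod (fair Edg)) :=
      Integrable.of_bound (hmp.comp hmix).aestronglyMeasurable 1
        (Eventually.of_forall fun z => hΦ1 _)
    have e3 : (∫ ω, Φ (path ω) ∂pl q) - ∫ ω, Φ (path ω) ∂pl (mixc B q fun _ => half) =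
        ∫ z : Conf × Conf, (Φ (path z.1) - Φ (path (mixc B z.1 z.2))) ∂((pl q).prod (fair Edg)) := by
      rw [e1, e2, integral_sub j1 j2]
    have e4 : ∫ z : Conf × Conf, |Φ (path z.1) - Φ (path (mixc B z.1 z.2))|
        ∂((pl q).prod (fair Edg)) = ∫ ω, K ω ∂pl q := by
      rw [integral_prod _ (hint _ _)]
    have e5 : |(∫ ω, Φ (path ω) ∂pl q) - ∫ ω, Φ (path ω) ∂pl (mixc B q fun _ => half)| ≤
        ∫ ω, K ω ∂pl q := by
      rw [e3, ← e4]
      exact abs_integral_le_integral_abs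
    have e6 : ∫ ω, K ω ∂pl q ≤ 2 := by
      rw [← e4]
      calc ∫ z : Conf × Conf, |Φ (path z.1) - Φ (path (mixc B z.1 z.2))| ∂((pl q).prod (fair Edg))
          ≤ ∫ _z : Conf × Conf, (2 : ℝ) ∂((pl q).prod (fair Edg)) :=
            integral_mono (hint _ _) (integrable_const _) hb
        _ = 2 := by simp
    have e7 := abs_nonneg ((∫ ω, Φ (path ω) ∂pl q) - ∫ ω, Φ (path ω) ∂pl (mixc B q fun _ => half))
    rw [← sq_abs]
    nlinarith
  have hKm : mn (BW n) (fun x => K (ext (BW n) x)) = ∫ z : Conf × Conf,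
      |Φ (path z.1) - Φ (path (mixc B z.1 z.2))| ∂((fair Edg).prod (fair Edg)) := by
    rw [integral_prod _ (hint _ _), ← fair_int]
    refine integral_congr_ae (Eventually.of_forall fun ω => ?_)
    exact (hKres ω).symm
  have hKq : ∀ q : Edg → unitInterval, ∫ ω, K ω ∂pl q =
      ∫ ω, (fun x : BW n → Bool => K (ext (BW n) x)) (fun i : BW n => ω i) ∂pl q := by
    intro q
    refine integral_congr_ae (Eventually.of_forall fun ω => ?_)
    exact hKres ω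
  have hKi : Integrable (fun q : Edg → unitInterval => ∫ ω, K ω ∂pl q) (evn ν) := by
    simp only [hKq]
    exact integrable_pl_int (BW n) (fun x => K (ext (BW n) x))
  have hle : ∫ q, ((∫ ω, Φ (path ω) ∂pl q) -
      ∫ ω, Φ (path ω) ∂pl (mixc B q fun _ => half)) ^ 2 ∂evn ν ≤
      ∫ q, 2 * ∫ ω, K ω ∂pl q ∂evn ν :=
    integral_mono_of_nonneg (Eventually.of_forall fun q => sq_nonneg _) (hKi.const_mul 2)
      (Eventually.of_forall h1)
  refine hle.trans (le_of_eq ?_)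
  rw [integral_const_mul, ← hKm]
  congr 1
  simp only [hKq]
  exact evn_int hm (BW n) (fun x => K (ext (BW n) x))

theorem measurable_q {n : ℕ} {Φ : (ℕ → St) → ℝ} (hΦ : Dep n Φ) :
    Measurable fun q : Edg → unitInterval => ∫ ω, Φ (path ω) ∂pl q := by
  have h := measurable_pl_int (E := Edg) (BW n) (fun x => Φ (path (ext (BW n) x)))
  have e : (fun q : Edg → unitInterval => ∫ ω, Φ (path ω) ∂pl q) =
      fun q => ∫ ω : Conf, Φ (path (ext (BW n) (fun i : BW n => ω i))) ∂pl q := by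
    funext q
    refine integral_congr_ae (Eventually.of_forall fun ω => ?_)
    exact dep_res hΦ ω
  rw [e]
  exact h

theorem abs_q_le {Φ : (ℕ → St) → ℝ} (hΦ1 : ∀ p, |Φ p| ≤ 1) (P : Measure Conf)
    [IsProbabilityMeasure P] : |∫ ω, Φ (path ω) ∂P| ≤ 1 := by
  have h := norm_integral_le_of_norm_le_const (μ := P) (f := fun ω => Φ (path ω)) (C := 1)
    (Eventually.of_forall fun ω => hΦ1 _)
  simpa using h

theorem sq_le_four {a b : ℝ} (ha : |a| ≤ 1) (hb : |b| ≤ 1) : |(a - b) ^ 2| ≤ 4 := by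
  rw [abs_le] at ha hb
  rw [abs_of_nonneg (sq_nonneg _)]
  nlinarith

/-- the constants -/
theorem rate {a c : ℝ} (ha : 0 < a) (hc : 0 < c) {n : ℕ} (hn : 1 ≤ n) : ∃ r R : ℕ, 2 ≤ r ∧ 1 ≤ R ∧
    (n : ℝ) ^ (-(4/7) : ℝ) * (8 * (R : ℝ) ^ 2) ≤
      32 * (n : ℝ) ^ (-(min (2/7) (min (a / 14) (c / 14)))) ∧
    ((r : ℝ) / R) ^ a ≤ 3 ^ a * (n : ℝ) ^ (-(min (2/7) (min (a / 14) (c / 14)))) ∧
    (1 / (r : ℝ)) ^ c ≤ (n : ℝ) ^ (-(min (2/7) (min (a / 14) (c / 14)))) := by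
  have hn1 : (1 : ℝ) ≤ n := by exact_mod_cast hn
  have hn0 : (0 : ℝ) < n := by linarith
  set x : ℝ := (n : ℝ) ^ (1/14 : ℝ) with hx
  have hx1 : 1 ≤ x := Real.one_le_rpow hn1 (by norm_num)
  have hx0 : 0 < x := by linarith
  set s : ℝ := min (2/7) (min (a / 14) (c / 14)) with hs
  have hxp : ∀ t : ℝ, x ^ t = (n : ℝ) ^ (t / 14) := by
    intro t
    rw [hx, ← Real.rpow_mul hn0.le]
    congr 1
    ring
  refine ⟨⌈x⌉₊ + 1, ⌈x ^ 2⌉₊, ?_, ?_, ?_, ?_, ?_⟩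
  · have : 0 < ⌈x⌉₊ := Nat.ceil_pos.2 hx0
    omega
  · have : 0 < ⌈x ^ 2⌉₊ := Nat.ceil_pos.2 (by positivity)
    omega
  · have h1 : ((⌈x ^ 2⌉₊ : ℕ) : ℝ) ≤ 2 * x ^ 2 := by
      have := (Nat.ceil_lt_add_one (show 0 ≤ x ^ 2 by positivity)).le
      nlinarith
    have h0 : (0 : ℝ) ≤ ((⌈x ^ 2⌉₊ : ℕ) : ℝ) := Nat.cast_nonneg _
    have h2 : 8 * ((⌈x ^ 2⌉₊ : ℕ) : ℝ) ^ 2 ≤ 32 * x ^ (4 : ℝ) := by
      have : x ^ (4 : ℝ) = (x ^ 2) ^ 2 := by
        rw [show (4 : ℝ) = ((4 : ℕ) : ℝ) by norm_num, Real.rpow_natCast]; ring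
      rw [this]
      nlinarith
    have h3 : (n : ℝ) ^ (-(4/7) : ℝ) * x ^ (4 : ℝ) = (n : ℝ) ^ (-(2/7) : ℝ) := by
      rw [hxp, ← Real.rpow_add hn0]
      norm_num
    have h4 : (n : ℝ) ^ (-(2/7) : ℝ) ≤ (n : ℝ) ^ (-s) :=
      Real.rpow_le_rpow_of_exponent_le hn1 (neg_le_neg (min_le_left _ _))
    have h5 : 0 ≤ (n : ℝ) ^ (-(4/7) : ℝ) := by positivity
    calc (n : ℝ) ^ (-(4/7) : ℝ) * (8 * ((⌈x ^ 2⌉₊ : ℕ) : ℝ) ^ 2)
        ≤ (n : ℝ) ^ (-(4/7) : ℝ) * (32 * x ^ (4 : ℝ)) := mul_le_mul_of_nonneg_left h2 h5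
      _ = 32 * (n : ℝ) ^ (-(2/7) : ℝ) := by rw [← h3]; ring
      _ ≤ _ := by linarith
  · have h1 : (((⌈x⌉₊ + 1 : ℕ) : ℕ) : ℝ) ≤ 3 * x := by
      have := (Nat.ceil_lt_add_one hx0.le).le
      push_cast
      linarith
    have h2 : x ^ 2 ≤ ((⌈x ^ 2⌉₊ : ℕ) : ℝ) := Nat.le_ceil _
    have h3 : (((⌈x⌉₊ + 1 : ℕ) : ℕ) : ℝ) / ((⌈x ^ 2⌉₊ : ℕ) : ℝ) ≤ 3 * x⁻¹ := by
      calc (((⌈x⌉₊ + 1 : ℕ) : ℕ) : ℝ) / ((⌈x ^ 2⌉₊ : ℕ) : ℝ) ≤ (3 * x) / (x ^ 2) :=
            div_le_div₀ (by positivity) h1 (by positivity) h2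
        _ = 3 * x⁻¹ := by field_simp
    calc ((((⌈x⌉₊ + 1 : ℕ) : ℕ) : ℝ) / ((⌈x ^ 2⌉₊ : ℕ) : ℝ)) ^ a ≤ (3 * x⁻¹) ^ a :=
          Real.rpow_le_rpow (by positivity) h3 ha.le
      _ = 3 ^ a * (n : ℝ) ^ (-(a / 14)) := by
          rw [Real.mul_rpow (by norm_num) (by positivity), Real.inv_rpow hx0.le,
            ← Real.rpow_neg hx0.le, hxp]
          congr 2
          ring
      _ ≤ _ := by
          refine mul_le_mul_of_nonneg_left ?_ (by positivity)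
          exact Real.rpow_le_rpow_of_exponent_le hn1
            (neg_le_neg ((min_le_right _ _).trans (min_le_left _ _)))
  · have h1 : x ≤ (((⌈x⌉₊ + 1 : ℕ) : ℕ) : ℝ) := by
      have := Nat.le_ceil x
      push_cast
      linarith
    calc (1 / (((⌈x⌉₊ + 1 : ℕ) : ℕ) : ℝ)) ^ c ≤ (x⁻¹) ^ c := by
          refine Real.rpow_le_rpow (by positivity) ?_ hc.le
          rw [one_div]
          exact inv_anti₀ hx0 h1
      _ = (n : ℝ) ^ (-(c / 14)) := by
          rw [Real.inv_rpow hx0.le, ← Real.rpow_neg hx0.le, hxp]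
          congr 1
          ring
      _ ≤ _ := Real.rpow_le_rpow_of_exponent_le hn1
            (neg_le_neg ((min_le_right _ _).trans (min_le_right _ _)))

/-- **The variance bound.** -/
theorem main_var : ∃ C c : ℝ, 0 < C ∧ 0 < c ∧ ∀ (ν : Edg → Measure unitInterval)
    [∀ e, IsProbabilityMeasure (ν e)] (_ : ∀ e, ∫ p, (p : ℝ) ∂ν e = 1 / 2) (ρ : ℝ) (_ : 0 ≤ ρ)
    (_ : ρ < 1) (_ : ∀ e, rho (ν e) ≤ ρ) (n : ℕ) (_ : 1 ≤ n) (Φ : (ℕ → St) → ℝ) (L : ℝ)
    (_ : 0 ≤ L) (_ : ∀ p, |Φ p| ≤ 1) (_ : LipP n (L * (n : ℝ) ^ (-(4/7) : ℝ)) Φ),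
    ∫ q, ((∫ ω, Φ (path ω) ∂pl q) - ∫ ω, Φ (path ω) ∂perc) ^ 2 ∂evn ν ≤
      C * (1 + L) * (1 + ρ / (1 - ρ) ^ 2) * (n : ℝ) ^ (-c) := by
  obtain ⟨C, c, hC, hc, hfro⟩ := frozen
  obtain ⟨a, A, ha, hA, hdiff⟩ := diff_bound
  refine ⟨128 + 16 * A * 3 ^ a + 2 * C, min (2/7) (min (a / 14) (c / 14)), by positivity,
    lt_min (by norm_num) (lt_min (by positivity) (by positivity)), ?_⟩
  intro ν _ hm ρ hρ0 hρ1 hρ n hn Φ L hL hΦ1 hLip
  obtain ⟨r, R, hr, hR, b1, b2, b3⟩ := rate ha hc hn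
  set s : ℝ := min (2/7) (min (a / 14) (c / 14)) with hs
  have hΦ := hLip.dep
  have hn0 : (0 : ℝ) < n := by exact_mod_cast (by omega : 0 < n)
  set T : ℝ := (n : ℝ) ^ (-s) with hT
  have hT0 : 0 < T := by positivity
  set X : (Edg → unitInterval) → ℝ := fun q => ∫ ω, Φ (path ω) ∂pl q with hX
  set Y : (Edg → unitInterval) → ℝ := fun q => X (mixc (BB r) q fun _ => half) with hY
  set Z : ℝ := ∫ ω, Φ (path ω) ∂perc with hZ
  have hXm : Measurable X := measurable_q hΦ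
  have hmq : Measurable fun q : Edg → unitInterval => mixc (BB r) q fun _ => half :=
    (measurable_mixc (BB r)).comp (measurable_id.prodMk measurable_const)
  have hYm : Measurable Y := hXm.comp hmq
  have hX1 : ∀ q, |X q| ≤ 1 := fun q => abs_q_le hΦ1 _
  have hZ1 : |Z| ≤ 1 := abs_q_le hΦ1 _
  have hY1 : ∀ q, |Y q| ≤ 1 := fun q => hX1 _
  -- first part
  have h1 : ∫ q, (X q - Y q) ^ 2 ∂evn ν ≤
      2 * (L * (n : ℝ) ^ (-(4/7) : ℝ) * (8 * (R : ℝ) ^ 2) + 4 * (A * ((r : ℝ) / R) ^ a)) := by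
    refine (env_diff ν hm hΦ1 hΦ (BB r)).trans ?_
    exact mul_le_mul_of_nonneg_left (hdiff n Φ (L * (n : ℝ) ^ (-(4/7) : ℝ)) hΦ1 (by positivity)
      hLip r R (by omega) hR) (by norm_num)
  -- second part
  have h2 : ∫ q, (Y q - Z) ^ 2 ∂evn ν ≤ C * (1 / (r : ℝ)) ^ c * (ρ / (1 - ρ) ^ 2) := by
    have e1 : ∫ q, (Y q - Z) ^ 2 ∂evn ν =
        ∫ q, (X q - Z) ^ 2 ∂evn (mixc (BB r) ν fun _ => Measure.dirac half) := by
      rw [← map_env, integral_map hmq.aemeasurable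
        ((hXm.sub_const Z).pow_const 2).aestronglyMeasurable]
    rw [e1]
    refine hfro (mixc (BB r) ν fun _ => Measure.dirac half) ?_ ρ hρ0 hρ1 ?_ r hr ?_ n Φ hΦ1 hΦ
    · intro e
      by_cases h : e ∈ BB r
      · rw [mixc_mem h, integral_dirac]
        simp [half]
      · rw [mixc_not h]
        exact hm e
    · intro e
      by_cases h : e ∈ BB r
      · rw [mixc_mem h, rho_dirac]
        exact hρ0
      · rw [mixc_not h]
        exact hρ e
    · intro e h1 h2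
      have h : e ∈ BB r := ⟨h1, h2⟩
      rw [mixc_mem h, rho_dirac]
  -- together
  have i1 : Integrable (fun q => (X q - Y q) ^ 2) (evn ν) :=
    Integrable.of_bound ((hXm.sub hYm).pow_const 2).aestronglyMeasurable 4
      (Eventually.of_forall fun q => sq_le_four (hX1 q) (hY1 q))
  have i2 : Integrable (fun q => (Y q - Z) ^ 2) (evn ν) :=
    Integrable.of_bound ((hYm.sub_const Z).pow_const 2).aestronglyMeasurable 4
      (Eventually.of_forall fun q => sq_le_four (hY1 q) hZ1)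
  have i3 : Integrable (fun q => 2 * (X q - Y q) ^ 2 + 2 * (Y q - Z) ^ 2) (evn ν) :=
    (i1.const_mul 2).add (i2.const_mul 2)
  have h3 : ∫ q, (X q - Z) ^ 2 ∂evn ν ≤ ∫ q, (2 * (X q - Y q) ^ 2 + 2 * (Y q - Z) ^ 2) ∂evn ν :=
    integral_mono_of_nonneg (Eventually.of_forall fun q => sq_nonneg _) i3
      (Eventually.of_forall fun q => by
        show (X q - Z) ^ 2 ≤ 2 * (X q - Y q) ^ 2 + 2 * (Y q - Z) ^ 2
        nlinarith [sq_nonneg ((X q - Y q) - (Y q - Z))])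
  rw [integral_add (i1.const_mul 2) (i2.const_mul 2), integral_const_mul, integral_const_mul] at h3
  refine h3.trans ?_
  set P : ℝ := ρ / (1 - ρ) ^ 2 with hP
  have hP0 : 0 ≤ P := by
    have : 0 < 1 - ρ := by linarith
    positivity
  have h3a : (0 : ℝ) < 3 ^ a := by positivity
  have g1 : L * (n : ℝ) ^ (-(4/7) : ℝ) * (8 * (R : ℝ) ^ 2) ≤ L * (32 * T) := by
    rw [mul_assoc]
    exact mul_le_mul_of_nonneg_left b1 hL
  have g2 : A * ((r : ℝ) / R) ^ a ≤ A * (3 ^ a * T) := mul_le_mul_of_nonneg_left b2 hA.le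
  have g3 : C * (1 / (r : ℝ)) ^ c * P ≤ C * T * P :=
    mul_le_mul_of_nonneg_right (mul_le_mul_of_nonneg_left b3 hC.le) hP0
  have g4 : 2 * ∫ q, (X q - Y q) ^ 2 ∂evn ν ≤ 128 * L * T + 16 * A * 3 ^ a * T := by
    linarith
  have g5 : 2 * ∫ q, (Y q - Z) ^ 2 ∂evn ν ≤ 2 * C * P * T := by
    linarith
  have g6 : 128 * L * T + 16 * A * 3 ^ a * T + 2 * C * P * T ≤
      (128 + 16 * A * 3 ^ a + 2 * C) * (1 + L) * (1 + P) * T := by
    have k1 : 128 * L + 16 * A * 3 ^ a + 2 * C * P ≤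
        (128 + 16 * A * 3 ^ a + 2 * C) * (1 + L) * (1 + P) := by
      have q1 : 0 ≤ 16 * A * 3 ^ a := by positivity
      have q2 : 0 ≤ L * P := mul_nonneg hL hP0
      nlinarith [mul_nonneg q1 hL, mul_nonneg q1 hP0, mul_nonneg q1 q2, mul_nonneg hC.le hL,
        mul_nonneg hC.le hP0, mul_nonneg hC.le q2]
    calc 128 * L * T + 16 * A * 3 ^ a * T + 2 * C * P * T =
        (128 * L + 16 * A * 3 ^ a + 2 * C * P) * T := by ring
      _ ≤ _ := mul_le_mul_of_nonneg_right k1 hT0.le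
  linarith

end Pool.Agent.X136.QE
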